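import Mathlib

set_option autoImplicit false

/-!
# The Delta-system lemma (copied from `Helper292/SP/Lib.lean`)
-/

open Cardinal Set

namespace Pool.Agent.H504.Delta

namespace DS

universe u

/-- unions of few small sets are small -/
theorem small_iUnion {ι α : Type u} {c : Cardinal.{u}} (hc : ℵ₀ ≤ c) (hι : #ι ≤ c)
    (f : ι → Set α) (hf : ∀ i, #(f i) ≤ c) : #(⋃ i, f i) ≤ c := by
  refine (Cardinal.mk_iUnion_le f).trans ?_
  calc #ι * (⨆ i, #(f i)) ≤ c * c := mul_le_mul' hι (ciSup_le' hf)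
    _ = c := Cardinal.mul_eq_self hc

theorem small_biUnion {ι α : Type u} {c : Cardinal.{u}} (hc : ℵ₀ ≤ c) (s : Set ι) (hs : #s ≤ c)
    (f : ι → Set α) (hf : ∀ i ∈ s, #(f i) ≤ c) : #(⋃ i ∈ s, f i) ≤ c := by
  rw [biUnion_eq_iUnion]
  exact small_iUnion hc hs _ (fun i => hf i.1 i.2)

theorem small_union {α : Type u} {c : Cardinal.{u}} (hc : ℵ₀ ≤ c) {s t : Set α}
    (hs : #s ≤ c) (ht : #t ≤ c) : #(s ∪ t : Set α) ≤ c := by
  refine (Cardinal.mk_union_le s t).trans ?_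
  calc #s + #t ≤ c + c := add_le_add hs ht
    _ = c := Cardinal.add_eq_self hc

theorem small_mono {α : Type u} {c : Cardinal.{u}} {s t : Set α} (h : s ⊆ t) (ht : #t ≤ c) :
    #s ≤ c := (Cardinal.mk_le_mk_of_subset h).trans ht

theorem small_subsingleton {α : Type u} {c : Cardinal.{u}} (hc : ℵ₀ ≤ c) {s : Set α}
    (hs : s.Subsingleton) : #s ≤ c := by
  have : s.Finite := hs.finite
  exact (this.lt_aleph0).le.trans hc

theorem small_singleton {α : Type u} {c : Cardinal.{u}} (hc : ℵ₀ ≤ c) (a : α) :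
    #({a} : Set α) ≤ c := small_subsingleton hc subsingleton_singleton

theorem small_finite {α : Type u} {c : Cardinal.{u}} (hc : ℵ₀ ≤ c) {s : Set α}
    (hs : s.Finite) : #s ≤ c := (hs.lt_aleph0).le.trans hc

theorem not_small_diff {α : Type u} {c : Cardinal.{u}} (hc : ℵ₀ ≤ c) {s t : Set α}
    (hs : ¬ #s ≤ c) (ht : #t ≤ c) : ¬ #(s \ t : Set α) ≤ c := by
  intro h
  apply hs
  refine small_mono (t := (s \ t) ∪ t) ?_ (small_union hc h ht)
  intro x hx
  by_cases hxt : x ∈ t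
  · exact Or.inr hxt
  · exact Or.inl ⟨hx, hxt⟩

theorem exists_of_not_small {α : Type u} {c : Cardinal.{u}} {s : Set α}
    (hs : ¬ #s ≤ c) : s.Nonempty := by
  by_contra h
  rw [Set.not_nonempty_iff_eq_empty] at h
  apply hs
  rw [h]
  simp

/-- a set of size larger than `c` is not covered by few small sets. -/
theorem exists_not_mem_biUnion {ι α : Type u} {c : Cardinal.{u}} (hc : ℵ₀ ≤ c) (s : Set ι)
    (hs : #s ≤ c) (f : ι → Set α) (E : Set α) (hE : ¬ #E ≤ c)
    (hf : ∀ i ∈ s, #(E ∩ f i : Set α) ≤ c) : ∃ x ∈ E, ∀ i ∈ s, x ∉ f i := by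
  by_contra h
  push Not at h
  apply hE
  refine small_mono (t := ⋃ i ∈ s, E ∩ f i) ?_ (small_biUnion hc s hs _ hf)
  intro x hx
  obtain ⟨i, hi, hxi⟩ := h x hx
  simp only [mem_iUnion]
  exact ⟨i, hi, hx, hxi⟩

/-- Recursive choice along a well-founded relation. -/
theorem rec_choice {ι β : Type*} [Nonempty β] {r : ι → ι → Prop} (wf : WellFounded r)
    (P : ι → (ι → β) → β → Prop)
    (hloc : ∀ i f g b, (∀ j, r j i → f j = g j) → P i f b → P i g b)
    (hstep : ∀ i f, (∀ j, r j i → P j f (f j)) → ∃ b, P i f b) :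
    ∃ f : ι → β, ∀ i, P i f (f i) := by
  classical
  let d : β := Classical.arbitrary β
  let F : ι → β := wf.fix (fun i prev =>
    if h : ∃ b, P i (fun j => if hj : r j i then prev j hj else d) b then h.choose else d)
  have hF : ∀ i, F i =
      if h : ∃ b, P i (fun j => if r j i then F j else d) b then h.choose else d := by
    intro i
    have := wf.fix_eq (C := fun _ => β) (fun i prev =>
      if h : ∃ b, P i (fun j => if hj : r j i then prev j hj else d) b then h.choose else d) i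
    simp only [dite_eq_ite] at this
    exact this
  refine ⟨F, ?_⟩
  intro i
  induction i using wf.induction with
  | _ i ih =>
    have h1 : ∃ b, P i F b := hstep i F ih
    have h2 : ∃ b, P i (fun j => if r j i then F j else d) b := by
      obtain ⟨b, hb⟩ := h1
      exact ⟨b, hloc i F _ b (fun j hj => by simp [hj]) hb⟩
    rw [hF i, dif_pos h2]
    have h3 := h2.choose_spec
    exact hloc i _ F _ (fun j hj => by simp [hj]) h3

/-- A weak form of the Delta-system lemma. -/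
theorem weak_delta {E K : Type u} {c : Cardinal.{u}} (hc : ℵ₀ ≤ c) (hE : ¬ #E ≤ c) (Z : E → Set K)
    (hZ : ∀ b, #(Z b) < c) :
    ∃ (T : Set E) (R : Set K), (¬ #T ≤ c) ∧ #R ≤ c ∧
      ∀ b ∈ T, ∀ b' ∈ T, b ≠ b' → Z b ∩ Z b' ⊆ R := by
  by_contra hcon
  push Not at hcon
  -- maximal families
  have hmax : ∀ R : Set K, ∃ T : Set E, T.Pairwise (fun b b' => Z b ∩ Z b' ⊆ R) ∧
      ∀ b, b ∉ T → ∃ b' ∈ T, ¬ (Z b ∩ Z b' ⊆ R) := by
    intro R
    obtain ⟨T, hT⟩ := zorn_subset {T : Set E | T.Pairwise (fun b b' => Z b ∩ Z b' ⊆ R)} (by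
      intro c hc hchain
      refine ⟨⋃₀ c, ?_, fun s hs => subset_sUnion_of_mem hs⟩
      exact (pairwise_sUnion hchain.directedOn).2 (fun s hs => hc hs))
    refine ⟨T, hT.prop, ?_⟩
    intro b hb
    by_contra h
    push Not at h
    have h2 : (insert b T).Pairwise (fun b b' => Z b ∩ Z b' ⊆ R) := by
      rw [pairwise_insert]
      refine ⟨hT.prop, ?_⟩
      intro b' hb' _
      refine ⟨h b' hb', ?_⟩
      rw [inter_comm]
      exact h b' hb'
    exact hb (hT.le_of_ge h2 (subset_insert b T) (mem_insert b T))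
  choose M hM1 hM2 using hmax
  have hMsmall : ∀ R : Set K, #R ≤ c → #(M R) ≤ c := by
    intro R hR
    by_contra h
    obtain ⟨b, hb, b', hb', hne, hsub⟩ := hcon (M R) R (not_le.1 h) hR
    exact hsub (hM1 R hb hb' hne)
  let F : Set K → Set K := fun R => R ∪ ⋃ b ∈ M R, Z b
  have hF : ∀ R : Set K, #R ≤ c → #(F R) ≤ c := by
    intro R hR
    exact small_union hc hR
      (small_biUnion hc _ (hMsmall R hR) _ (fun b _ => (hZ b).le))
  -- the recursion
  let W := (c).ord.ToType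
  have hWcard : #W = c := Cardinal.mk_ord_toType _
  obtain ⟨R, hR⟩ := rec_choice (ι := W) (β := Set K) (r := (· < ·)) wellFounded_lt
    (fun ξ f b => b = ⋃ η ∈ Iio ξ, F (f η))
    (by
      intro i f g b hfg h
      rw [h]
      refine iUnion₂_congr ?_
      intro j hj
      rw [hfg j hj])
    (by
      intro i f _
      exact ⟨_, rfl⟩)
  have hRsmall : ∀ ξ, #(R ξ) ≤ c := by
    intro ξ
    induction ξ using WellFoundedLT.induction with
    | _ ξ ih =>
      rw [hR ξ]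
      refine small_biUnion hc _ ?_ _ ?_
      · exact (Cardinal.mk_set_le _).trans hWcard.le
      · intro η hη
        exact hF _ (ih η hη)
  -- pick a point outside all the maximal families
  have hall : #(⋃ ξ, M (R ξ) : Set E) ≤ c :=
    small_iUnion hc hWcard.le _ (fun ξ => hMsmall _ (hRsmall ξ))
  have hEuniv : ¬ #(univ : Set E) ≤ c := by simpa using hE
  obtain ⟨b, _, hb⟩ := exists_of_not_small (not_small_diff hc hEuniv hall)
  have hb' : ∀ ξ, b ∉ M (R ξ) := by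
    intro ξ h
    exact hb (mem_iUnion.2 ⟨ξ, h⟩)
  have hz : ∀ ξ : W, ∃ z, z ∈ Z b ∧ z ∉ R ξ ∧ z ∈ F (R ξ) := by
    intro ξ
    obtain ⟨b', hb'M, hnot⟩ := hM2 (R ξ) b (hb' ξ)
    rw [not_subset] at hnot
    obtain ⟨z, hz, hzR⟩ := hnot
    refine ⟨z, hz.1, hzR, Or.inr ?_⟩
    simp only [mem_iUnion]
    exact ⟨b', hb'M, hz.2⟩
  choose z hz1 hz2 hz3 using hz
  have hinj : Function.Injective z := by
    have key : ∀ ξ η : W, ξ < η → z ξ ≠ z η := by
      intro ξ η hlt heq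
      apply hz2 η
      rw [hR η]
      simp only [mem_iUnion]
      exact ⟨ξ, hlt, heq ▸ hz3 ξ⟩
    intro ξ η heq
    rcases lt_trichotomy ξ η with h | h | h
    · exact absurd heq (key ξ η h)
    · exact h
    · exact absurd heq.symm (key η ξ h)
  have : #W ≤ #(Z b) := by
    refine Cardinal.mk_le_of_injective (f := fun ξ => (⟨z ξ, hz1 ξ⟩ : Z b)) ?_
    intro ξ η h
    exact hinj (Subtype.ext_iff.1 h)
  rw [hWcard] at this
  exact absurd (hZ b) (not_lt.2 this)


end DS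

/-- Pigeonhole principle. -/
theorem pigeon {E C : Type} {χ : Cardinal.{0}} (hχ : ℵ₀ ≤ χ) (T : Set E) (hT : ¬ #T ≤ χ)
    (f : E → C) (hC : #C ≤ χ) : ∃ (T' : Set E) (z : C), T' ⊆ T ∧ (¬ #T' ≤ χ) ∧ ∀ e ∈ T', f e = z := by
  by_contra hcon
  push Not at hcon
  apply hT
  have h1 : ∀ z : C, #({e | e ∈ T ∧ f e = z} : Set E) ≤ χ := by
    intro z
    by_contra h
    obtain ⟨e, he, hne⟩ := hcon {e | e ∈ T ∧ f e = z} z (fun e he => he.1) (not_le.1 h)
    exact hne he.2
  refine DS.small_mono (t := ⋃ z : C, {e | e ∈ T ∧ f e = z}) ?_ (DS.small_iUnion hχ hC _ h1)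
  intro e he
  exact mem_iUnion.2 ⟨f e, he, rfl⟩

/-- The delta system lemma. -/
theorem delta_sys {E K : Type} {χ σ : Cardinal.{0}} (hχ : ℵ₀ ≤ χ) (hσ : σ ≤ χ)
    (hpow : ∀ τ < σ, χ ^ τ ≤ χ) (T : Set E) (hT : ¬ #T ≤ χ) (Z : E → Set K)
    (hZ : ∀ e, #(Z e) < σ) :
    ∃ (T' : Set E) (R : Set K), T' ⊆ T ∧ (¬ #T' ≤ χ) ∧
      ∀ e ∈ T', ∀ e' ∈ T', e ≠ e' → Z e ∩ Z e' = R := by
  obtain ⟨T1, R, hT1, hR, hTR⟩ := DS.weak_delta (E := T) hχ hT (fun e => Z e.1)
    (fun e => (hZ e.1).trans_le hσ)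
  have hT2 : ¬ #(Subtype.val '' T1 : Set E) ≤ χ := by
    rw [Cardinal.mk_image_eq Subtype.val_injective]
    exact hT1
  -- the possible traces
  have hC : ∃ C : Set (Set K), #C ≤ χ ∧ ∀ e, Z e ∩ R ∈ C := by
    refine ⟨⋃ w : σ.ord.ToType, {t : Set K | t ⊆ R ∧
      #t ≤ (Ordinal.ToType.mk.symm w).1.card}, ?_, ?_⟩
    · refine DS.small_iUnion hχ ?_ _ ?_
      · rw [Cardinal.mk_ord_toType]; exact hσ
      · intro w
        have h1 : (Ordinal.ToType.mk.symm w).1.card < σ := by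
          have h : (Ordinal.ToType.mk.symm w).1 < σ.ord := (Ordinal.ToType.mk.symm w).2
          exact Cardinal.lt_ord.1 h
        refine (Cardinal.mk_bounded_subset_le R _).trans ?_
        refine le_trans ?_ (hpow _ h1)
        exact Cardinal.power_le_power_right (max_le hR hχ)
    · intro e
      have h1 : #(Z e ∩ R : Set K) < σ := (Cardinal.mk_le_mk_of_subset inter_subset_left).trans_lt (hZ e)
      have h2 : (#(Z e ∩ R : Set K)).ord < σ.ord := Cardinal.ord_lt_ord.2 h1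
      refine mem_iUnion.2 ⟨Ordinal.ToType.mk ⟨_, h2⟩, inter_subset_right, ?_⟩
      rw [Ordinal.ToType.mk.symm_apply_apply, Cardinal.card_ord]
  obtain ⟨C, hCχ, hCZ⟩ := hC
  obtain ⟨T', z, hT'sub, hT', hz⟩ := pigeon hχ (Subtype.val '' T1 : Set E) hT2
    (fun e => (⟨Z e ∩ R, hCZ e⟩ : C)) hCχ
  refine ⟨T', z.1, ?_, hT', ?_⟩
  · intro e he
    obtain ⟨e', _, rfl⟩ := hT'sub he
    exact e'.2
  · intro e he e' he' hne
    have h1 : Z e ∩ R = z.1 := congrArg Subtype.val (hz e he)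
    have h2 : Z e' ∩ R = z.1 := congrArg Subtype.val (hz e' he')
    obtain ⟨a, ha, rfl⟩ := hT'sub he
    obtain ⟨a', ha', rfl⟩ := hT'sub he'
    have h3 : Z a.1 ∩ Z a'.1 ⊆ R := hTR a ha a' ha' (fun h => hne (by rw [h]))
    apply Subset.antisymm
    · intro k hk
      rw [← h1]
      exact ⟨hk.1, h3 hk⟩
    · intro k hk
      have h4 : k ∈ Z a.1 ∩ R := by rw [h1]; exact hk
      have h5 : k ∈ Z a'.1 ∩ R := by rw [h2]; exact hk
      exact ⟨h4.1, h5.1⟩


end Pool.Agent.H504.Delta
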