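import Mathlib
import Pool.Agent.Helper292.ForceCH

/-!
# A statement refuting the base property, and the same statement in the forcing language

`Phi` says that some set `K` of reals carries a family of subsets, indexed by `K`, which is
contained in no countably generated sigma-algebra. `ForcedPhi` is the same formula in the forcing
language of `Helper292.ForceCH`: a sentence is the set of the conditions forcing it, a name for a
subset of a ground model set `K` is a map `C : K → Set P` (with `meets (C b)` saying that `b` is in
the named set), and a name for a family of subsets of `K` is a map `S : (K → Set P) → Set P`.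
-/

set_option autoImplicit false

namespace Pool.Agent.H504.UC

open Pool.Agent.Helper292.ForceCH (fnot fand fall fimp fiff fex fground meets)

/-- Some set of reals (indexed by `K`, the reals being subsets of `ℕ`) has a family `I a`, `a ∈ K`,
of subsets such that for every sequence `B` of subsets of `K` there are `a` and a family `S` of
subsets of `K`, containing all `B n`, closed under complements and under countable unions, with
`I a ∉ S`. -/
def Phi : Prop :=
  ∃ (K : Type) (x : K → Set ℕ) (I : K → Set K), (∀ a b, (∀ n, n ∈ x a ↔ n ∈ x b) → a = b) ∧
    ∀ B : ℕ → Set K, ∃ (a : K) (S : Set (Set K)), (∀ n, B n ∈ S) ∧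
      (∀ C C' : Set K, C ∈ S → (∀ b, b ∈ C' ↔ b ∉ C) → C' ∈ S) ∧
      (∀ (C : ℕ → Set K) (C' : Set K), (∀ n, C n ∈ S) → (∀ b, b ∈ C' ↔ ∃ n, b ∈ C n) → C' ∈ S) ∧
      I a ∉ S

section

variable {P : Type} [Preorder P] {X : Type}

/-- The named subsets of `X` are equal. -/
def FSame (C C' : X → Set P) : Set P := fall fun b => fiff (meets (C b)) (meets (C' b))

/-- The named subset `C` of `X` belongs to the named family `S`. -/
def FMem (C : X → Set P) (S : (X → Set P) → Set P) : Set P :=
  fex fun C' : X → Set P => fand (meets (S C')) (FSame C' C)

variable (P X)

/-- `Phi` in the extension, for the ground model set `K`. -/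
def ForcedPhi : Set P :=
  fex fun x : X → ℕ → Set P => fex fun I : X → X → Set P =>
    fand (fall fun a => fall fun b => fimp (FSame (x a) (x b)) (fground (a = b)))
      (fall fun B : ℕ → X → Set P => fex fun a : X => fex fun S : (X → Set P) → Set P =>
        fand (fall fun n => FMem (B n) S)
          (fand (fall fun C : X → Set P => fall fun C' : X → Set P =>
              fimp (fand (FMem C S) (fall fun b => fiff (meets (C' b)) (fnot (meets (C b)))))
                (FMem C' S))
            (fand (fall fun C : ℕ → X → Set P => fall fun C' : X → Set P =>
                fimp (fand (fall fun n => FMem (C n) S)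
                  (fall fun b => fiff (meets (C' b)) (fex fun n => meets (C n b))))
                  (FMem C' S))
              (fnot (FMem (I a) S)))))

end

end Pool.Agent.H504.UC
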