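import Mathlib
import Pool.Agent.H458R4.Cohen
import Pool.Agent.H504.UCDefs

set_option autoImplicit false

/-!
# Permutations acting on Cohen conditions
-/

namespace Pool.Agent.H504.UC

open Cardinal Set
open Pool.Agent.Helper292.ForceCH (fnot fand fall fimp fiff fex fground meets mem_fex mem_fimp
  Down down_fnot down_fand down_fall down_fex down_fimp down_meets)
open Pool.Agent.H458R4.Cohen (Fn Compat ccc exists_antichain compat_iff ext_g)

/-- the embedding of the elements of graphs -/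
def emb {K K' : Type} (f : K → K') (hf : Function.Injective f) :
    ((K × ℕ) × Bool) ↪ ((K' × ℕ) × Bool) where
  toFun y := ((f y.1.1, y.1.2), y.2)
  inj' := by
    rintro ⟨⟨a, n⟩, b⟩ ⟨⟨a', n'⟩, b'⟩ h
    simp only [Prod.mk.injEq] at h
    obtain ⟨⟨h1, h2⟩, h3⟩ := h
    rw [hf h1, h2, h3]

/-- transport of a condition along an injection -/
def tr {K K' : Type} (f : K → K') (hf : Function.Injective f) (p : Fn K) : Fn K' where
  g := p.g.map (emb f hf)
  fn := by
    intro a b b' h h'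
    simp only [Finset.mem_map, emb, Function.Embedding.coeFn_mk] at h h'
    obtain ⟨⟨⟨c, n⟩, d⟩, h1, h2⟩ := h
    obtain ⟨⟨⟨c', n'⟩, d'⟩, h1', h2'⟩ := h'
    simp only [Prod.mk.injEq] at h2 h2'
    obtain ⟨h2, rfl⟩ := h2
    obtain ⟨h2', rfl⟩ := h2'
    rw [← h2] at h2'
    simp only [Prod.mk.injEq] at h2'
    obtain ⟨h3, rfl⟩ := h2'
    have h4 := hf h3
    subst h4
    exact p.fn _ _ _ h1 h1'

theorem mem_tr {K K' : Type} {f : K → K'} {hf : Function.Injective f} {p : Fn K} {a : K'} {n : ℕ}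
    {b : Bool} : ((a, n), b) ∈ (tr f hf p).g ↔ ∃ c, f c = a ∧ ((c, n), b) ∈ p.g := by
  simp only [tr, Finset.mem_map, emb, Function.Embedding.coeFn_mk]
  constructor
  · rintro ⟨⟨⟨c, n'⟩, b'⟩, h1, h2⟩
    simp only [Prod.mk.injEq] at h2
    obtain ⟨⟨h3, rfl⟩, rfl⟩ := h2
    exact ⟨c, h3, h1⟩
  · rintro ⟨c, rfl, h⟩
    exact ⟨_, h, rfl⟩

theorem fn_ext {K : Type} {p q : Fn K}
    (h : ∀ (a : K) (n : ℕ) (b : Bool), ((a, n), b) ∈ p.g ↔ ((a, n), b) ∈ q.g) : p = q := by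
  apply ext_g
  ext ⟨⟨a, n⟩, b⟩
  exact h a n b

/-- the support -/
def supp {K : Type} (p : Fn K) : Set K := {a | ∃ n b, ((a, n), b) ∈ p.g}

theorem supp_finite {K : Type} (p : Fn K) : (supp p).Finite := by
  classical
  refine (Finset.finite_toSet (p.g.image fun y => y.1.1)).subset ?_
  rintro a ⟨n, b, h⟩
  exact Finset.mem_coe.2 (Finset.mem_image.2 ⟨_, h, rfl⟩)

/-- the action -/
def act {K : Type} (π : Equiv.Perm K) (p : Fn K) : Fn K := tr π π.injective p

theorem mem_act {K : Type} {π : Equiv.Perm K} {p : Fn K} {a : K} {n : ℕ} {b : Bool} :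
    ((a, n), b) ∈ (act π p).g ↔ ((π.symm a, n), b) ∈ p.g := by
  unfold act
  rw [mem_tr]
  constructor
  · rintro ⟨c, rfl, h⟩
    simpa using h
  · intro h
    exact ⟨_, by simp, h⟩

theorem act_symm {K : Type} (π : Equiv.Perm K) (p : Fn K) : act π (act π.symm p) = p := by
  apply fn_ext
  intro a n b
  rw [mem_act, mem_act]
  simp

theorem symm_act {K : Type} (π : Equiv.Perm K) (p : Fn K) : act π.symm (act π p) = p := by
  apply fn_ext
  intro a n b
  rw [mem_act, mem_act]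
  simp

theorem act_mono {K : Type} (π : Equiv.Perm K) {p q : Fn K} (h : q ≤ p) : act π q ≤ act π p := by
  rintro ⟨⟨a, n⟩, b⟩ hy
  rw [mem_act] at hy ⊢
  exact h hy

theorem act_fix {K : Type} (π : Equiv.Perm K) {p : Fn K} (h : ∀ a ∈ supp p, π a = a) :
    act π p = p := by
  apply fn_ext
  intro a n b
  rw [mem_act]
  constructor
  · intro h1
    have h2 := h _ ⟨n, b, h1⟩
    rw [Equiv.apply_symm_apply] at h2
    rw [← h2] at h1
    exact h1
  · intro h1
    have h2 := h _ ⟨n, b, h1⟩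
    have h3 : π.symm a = a := by
      rw [Equiv.symm_apply_eq, h2]
    rw [h3]
    exact h1

theorem act_tr {K : Type} (π : Equiv.Perm K) {e e' : ℕ → K} (he : Function.Injective e)
    (he' : Function.Injective e') (h : ∀ i, π (e i) = e' i) (p : Fn ℕ) :
    act π (tr e he p) = tr e' he' p := by
  apply fn_ext
  intro a n b
  rw [mem_act, mem_tr, mem_tr]
  constructor
  · rintro ⟨i, h1, h2⟩
    refine ⟨i, ?_, h2⟩
    rw [← h, h1]
    simp
  · rintro ⟨i, h1, h2⟩
    refine ⟨i, ?_, h2⟩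
    rw [← h1, ← h]
    simp

theorem exists_tr {K : Type} {e : ℕ → K} (he : Function.Injective e) {p : Fn K}
    (h : supp p ⊆ range e) : ∃ p' : Fn ℕ, tr e he p' = p := by
  classical
  refine ⟨⟨p.g.preimage (emb e he) (emb e he).injective.injOn, ?_⟩, ?_⟩
  · rintro ⟨i, n⟩ b b' h1 h2
    rw [Finset.mem_preimage] at h1 h2
    exact p.fn _ _ _ h1 h2
  · apply fn_ext
    intro a n b
    rw [mem_tr]
    constructor
    · rintro ⟨i, rfl, h1⟩
      rw [Finset.mem_preimage] at h1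
      exact h1
    · intro h1
      obtain ⟨i, rfl⟩ := h ⟨n, b, h1⟩
      refine ⟨i, rfl, ?_⟩
      rw [Finset.mem_preimage]
      exact h1

theorem meets_act_of {K : Type} (π : Equiv.Perm K) {N N' : Set (Fn K)}
    (h : ∀ s ∈ N, act π s ∈ N') {r : Fn K} (hr : r ∈ meets N) : act π r ∈ meets N' := by
  intro q hq
  have h1 : act π.symm q ≤ r := by
    have := act_mono π.symm hq
    rwa [symm_act] at this
  obtain ⟨t, ht, s, hs, hts⟩ := hr _ h1
  refine ⟨act π t, ?_, act π s, h s hs, act_mono π hts⟩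
  have := act_mono π ht
  rwa [act_symm] at this

theorem meets_act {K : Type} (π : Equiv.Perm K) {N N' : Set (Fn K)}
    (h : ∀ s, s ∈ N ↔ act π s ∈ N') {r : Fn K} : r ∈ meets N ↔ act π r ∈ meets N' := by
  constructor
  · exact meets_act_of π fun s hs => (h s).1 hs
  · intro hr
    have := meets_act_of π.symm (N := N') (N' := N) (fun s hs => by
      rw [h, act_symm]
      exact hs) hr
    rwa [symm_act] at this

/-- the set is determined by dense information -/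
def Reg {P : Type} [Preorder P] (φ : Set P) : Prop :=
  Down φ ∧ ∀ p, (∀ q ≤ p, ∃ r ≤ q, r ∈ φ) → p ∈ φ

section

variable {P : Type} [Preorder P]

theorem reg_meets (N : Set P) : Reg (meets N) :=
  ⟨down_meets N, fun _ h => Pool.Agent.Helper292.ForceCH.meets_of_dense h⟩

theorem reg_fnot {φ : Set P} (hφ : Down φ) : Reg (fnot φ) := by
  refine ⟨down_fnot φ, fun p h q hq hqφ => ?_⟩
  obtain ⟨r, hr, h1⟩ := h q hq
  exact h1 r le_rfl (hφ _ hqφ _ hr)

theorem reg_fex {ι : Type} (φ : ι → Set P) : Reg (fex φ) :=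
  reg_fnot (down_fall fun _ => down_fnot _)

theorem mem_fimp_reg {φ ψ : Set P} (hφ : Down φ) (hψ : Reg ψ) {p : P} :
    p ∈ fimp φ ψ ↔ ∀ q ≤ p, q ∈ φ → q ∈ ψ := by
  rw [mem_fimp]
  constructor
  · intro h q hq h1
    refine hψ.2 q fun r hr => ?_
    obtain ⟨s, hs, h2⟩ := h r (hr.trans hq) (hφ _ h1 _ hr)
    exact ⟨s, hs, h2⟩
  · intro h q hq h1
    exact ⟨q, le_rfl, h q hq h1⟩

theorem mem_fiff_reg {φ ψ : Set P} (hφ : Reg φ) (hψ : Reg ψ) {p : P} :
    p ∈ fiff φ ψ ↔ ∀ q ≤ p, (q ∈ φ ↔ q ∈ ψ) := by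
  constructor
  · rintro ⟨h1, h2⟩ q hq
    exact ⟨(mem_fimp_reg hφ.1 hψ).1 h1 q hq, (mem_fimp_reg hψ.1 hφ).1 h2 q hq⟩
  · intro h
    exact ⟨(mem_fimp_reg hφ.1 hψ).2 fun q hq => (h q hq).1,
      (mem_fimp_reg hψ.1 hφ).2 fun q hq => (h q hq).2⟩

theorem down_fiff (φ ψ : Set P) : Down (fiff φ ψ) := down_fand (down_fimp _ _) (down_fimp _ _)

variable {X : Type}

theorem down_FSame (C C' : X → Set P) : Down (FSame C C') := down_fall fun _ => down_fiff _ _

theorem mem_FSame {C C' : X → Set P} {p : P} :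
    p ∈ FSame C C' ↔ ∀ b, ∀ q ≤ p, (q ∈ meets (C b) ↔ q ∈ meets (C' b)) := by
  constructor
  · intro h b
    exact (mem_fiff_reg (reg_meets _) (reg_meets _)).1 (h b)
  · intro h b
    exact (mem_fiff_reg (reg_meets _) (reg_meets _)).2 (h b)

theorem down_FMem (C : X → Set P) (S : (X → Set P) → Set P) : Down (FMem C S) := down_fex _

theorem mem_fex_of {ι : Type} {φ : ι → Set P} {p : P} (i : ι) (hd : Down (φ i)) (h : p ∈ φ i) :
    p ∈ fex φ := mem_fex.2 fun q hq => ⟨q, le_rfl, i, hd _ h _ hq⟩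

theorem meets_of_mem {N : Set P} {p : P} (h : p ∈ N) : p ∈ meets N :=
  fun q hq => ⟨q, le_rfl, p, h, hq⟩

/-- the family of the names in `C`, all members being there for sure -/
def cst (𝒞 : Set (X → Set P)) : (X → Set P) → Set P := fun C => {_p | C ∈ 𝒞}

theorem mem_FMem_cst_of {𝒞 : Set (X → Set P)} {C C' : X → Set P} {p : P} (h : C' ∈ 𝒞)
    (h1 : p ∈ FSame C' C) : p ∈ FMem C (cst 𝒞) :=
  mem_fex_of C' (down_fand (down_meets _) (down_FSame _ _)) ⟨meets_of_mem h, h1⟩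

end

/-- replacing a name by a countable one -/
theorem exists_countable_name {K : Type} (N : Set (Fn K)) :
    ∃ N' : Set (Fn K), N'.Countable ∧ meets N' = meets N := by
  classical
  obtain ⟨A, hAE, hAc, hApre, _⟩ := exists_antichain
    (E := {r : Fn K | (∃ s ∈ N, r ≤ s) ∨ ∀ r' ≤ r, ¬ ∃ s ∈ N, r' ≤ s}) (by
      intro p
      by_cases h : ∃ r ≤ p, ∃ s ∈ N, r ≤ s
      · obtain ⟨r, hr, h1⟩ := h
        exact ⟨r, hr, Or.inl h1⟩
      · refine ⟨p, le_rfl, Or.inr fun r' hr' h1 => h ⟨r', hr', h1⟩⟩)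
  refine ⟨{a ∈ A | ∃ s ∈ N, a ≤ s}, hAc.mono (sep_subset _ _), ?_⟩
  ext p
  constructor
  · intro h q hq
    obtain ⟨r, hr, a, ⟨_, s, hs, has⟩, hra⟩ := h q hq
    exact ⟨r, hr, s, hs, hra.trans has⟩
  · intro h q hq
    obtain ⟨r, hr, s, hs, hrs⟩ := h q hq
    obtain ⟨a, haA, t, ht1, ht2⟩ := hApre r
    refine ⟨t, ht2.trans hr, a, ⟨haA, ?_⟩, ht1⟩
    rcases hAE haA with h1 | h1
    · exact h1
    · exact absurd ⟨s, hs, ht2.trans hrs⟩ (h1 t ht1)

end Pool.Agent.H504.UC
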