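import Mathlib
import Pool.Agent.H504.UCAct
import Pool.Agent.H151.Combi

set_option autoImplicit false

/-!
# Tagged finite approximations to generic analytic sets

`r x`, `x < ω₁`, are distinct elements of the Cantor space. A condition gives, for finitely many
`i : J`, finitely many nodes `0, …, N i - 1`, and for each node `n` a finite set `e i n` of pairs
`(m, u)`, saying that there is an edge from `m < n` to `n` in the graph attached to every real
extending the finite sequence `u`. For finitely many pairs `(i, x)` every node also has a tag, in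
such a way that the tags decrease strictly along the edges present in the graph of `r x`, except
that all tags are allowed below the tag `⊤`. A tag at `x` is `⊤` or a pair `(a, k)` with `a < x`.
-/

namespace Pool.Agent.H504.TS

open Cardinal Set
open Pool.Agent.Helper292.ForceCH (Om countable_Iio exists_bound)

/-- tags -/
abbrev Tag : Type := WithTop (Om ×ₗ ℕ)

/-- the tag `(a, k)` -/
def tg (a : Om) (k : ℕ) : Tag := ((toLex (a, k) : Om ×ₗ ℕ) : Tag)

theorem tg_lt {a b : Om} {k l : ℕ} : tg a k < tg b l ↔ a < b ∨ a = b ∧ k < l := by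
  unfold tg
  rw [WithTop.coe_lt_coe, Prod.Lex.toLex_lt_toLex]

theorem tg_le {a b : Om} {k l : ℕ} : tg a k ≤ tg b l ↔ a < b ∨ a = b ∧ k ≤ l := by
  unfold tg
  rw [WithTop.coe_le_coe, Prod.Lex.toLex_le_toLex]

theorem tg_ne_top {a : Om} {k : ℕ} : tg a k ≠ ⊤ := WithTop.coe_ne_top

/-- `u` is an initial segment of the real `z` -/
def Pre (u : List Bool) (z : ℕ → Bool) : Prop := ∀ n b, u[n]? = some b → z n = b

/-- conditions -/
structure Cd (J : Type) (r : Om → ℕ → Bool) where
  D : Finset J
  N : J → ℕ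
  e : J → ℕ → Finset (ℕ × List Bool)
  F : Finset (J × Om)
  tag : J → Om → ℕ → Tag
  hN : ∀ i, i ∉ D → N i = 0
  hF : ∀ y ∈ F, y.1 ∈ D
  he : ∀ i n m u, n < N i → (m, u) ∈ e i n → m < n
  ht : ∀ i x, (i, x) ∈ F → ∀ n < N i, tag i x n = ⊤ ∨ ∃ a k, tag i x n = tg a k ∧ a < x
  hd : ∀ i x, (i, x) ∈ F → ∀ n < N i, ∀ m u, (m, u) ∈ e i n → Pre u (r x) →
    tag i x m = ⊤ ∨ tag i x n < tag i x m

variable {J : Type} {r : Om → ℕ → Bool}

/-- `q` extends `p` -/
instance : Preorder (Cd J r) where
  le q p := (∀ i, p.N i ≤ q.N i) ∧ (∀ i, ∀ n < p.N i, q.e i n = p.e i n) ∧ p.F ⊆ q.F ∧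
    ∀ i x, (i, x) ∈ p.F → ∀ n < p.N i, q.tag i x n = p.tag i x n
  le_refl p := ⟨fun _ => le_rfl, fun _ _ _ => rfl, Finset.Subset.refl _, fun _ _ _ _ _ => rfl⟩
  le_trans s q p := by
    rintro ⟨h1, h2, h3, h4⟩ ⟨k1, k2, k3, k4⟩
    refine ⟨fun i => (k1 i).trans (h1 i), fun i n hn => ?_, k3.trans h3, fun i x hx n hn => ?_⟩
    · rw [h2 i n (hn.trans_le (k1 i)), k2 i n hn]
    · rw [h4 i x (k3 hx) n (hn.trans_le (k1 i)), k4 i x hx n hn]

theorem le_def {p q : Cd J r} : q ≤ p ↔ (∀ i, p.N i ≤ q.N i) ∧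
    (∀ i, ∀ n < p.N i, q.e i n = p.e i n) ∧ p.F ⊆ q.F ∧
    ∀ i x, (i, x) ∈ p.F → ∀ n < p.N i, q.tag i x n = p.tag i x n := Iff.rfl

/-- the empty condition -/
instance : Nonempty (Cd J r) :=
  ⟨{ D := ∅, N := fun _ => 0, e := fun _ _ => ∅, F := ∅, tag := fun _ _ _ => ⊤
     hN := fun _ _ => rfl
     hF := by simp
     he := by simp
     ht := by simp
     hd := by simp }⟩

/-- compatibility -/
def Compat (p q : Cd J r) : Prop := ∃ s, s ≤ p ∧ s ≤ q

section ccc

open Classical in
/-- the keys of a condition -/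
noncomputable def dm (p : Cd J r) : Finset (J × Option Om) :=
  p.D.image (fun j => (j, none)) ∪ p.F.image (fun y => (y.1, some y.2))

theorem mem_dm_none {p : Cd J r} {j : J} : (j, none) ∈ dm p ↔ j ∈ p.D := by
  simp [dm]

theorem mem_dm_some {p : Cd J r} {j : J} {y : Om} : (j, some y) ∈ dm p ↔ (j, y) ∈ p.F := by
  simp only [dm, Finset.mem_union, Finset.mem_image, Prod.mk.injEq, reduceCtorEq, and_false,
    exists_false, Option.some.injEq, false_or]
  constructor
  · rintro ⟨⟨a, b⟩, h, rfl, rfl⟩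
    exact h
  · intro h
    exact ⟨_, h, rfl, rfl⟩

/-- the amalgamation of two conditions which agree on the common keys -/
theorem compat_of_agree {p q : Cd J r} (h1 : ∀ j, j ∈ p.D → j ∈ q.D → p.N j = q.N j)
    (h2 : ∀ j, j ∈ p.D → j ∈ q.D → ∀ n < p.N j, p.e j n = q.e j n)
    (h3 : ∀ j x, (j, x) ∈ p.F → (j, x) ∈ q.F → ∀ n < p.N j, p.tag j x n = q.tag j x n) :
    Compat p q := by
  classical
  have hNq : ∀ j, j ∈ q.D → (if j ∈ p.D then p.N j else q.N j) = q.N j := by
    intro j hj
    split_ifs with h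
    · exact h1 j h hj
    · rfl
  have heq : ∀ j n, j ∈ q.D → n < q.N j → (if j ∈ p.D then p.e j n else q.e j n) = q.e j n := by
    intro j n hj hn
    split_ifs with h
    · exact h2 j h hj n (by rw [h1 j h hj]; exact hn)
    · rfl
  have htq : ∀ j x n, (j, x) ∈ q.F → n < q.N j →
      (if (j, x) ∈ p.F then p.tag j x n else q.tag j x n) = q.tag j x n := by
    intro j x n hj hn
    split_ifs with h
    · exact h3 j x h hj n (by rw [h1 j (p.hF _ h) (q.hF _ hj)]; exact hn)
    · rfl
  refine ⟨{ D := p.D ∪ q.D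
            N := fun j => if j ∈ p.D then p.N j else q.N j
            e := fun j n => if j ∈ p.D then p.e j n else q.e j n
            F := p.F ∪ q.F
            tag := fun j x n => if (j, x) ∈ p.F then p.tag j x n else q.tag j x n
            hN := ?_, hF := ?_, he := ?_, ht := ?_, hd := ?_ }, ?_, ?_⟩
  · intro j hj
    rw [Finset.notMem_union] at hj
    rw [if_neg hj.1]
    exact q.hN j hj.2
  · intro y hy
    rw [Finset.mem_union] at hy ⊢
    exact hy.imp (p.hF y) (q.hF y)
  · intro j n m u hn hm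
    split_ifs at hn hm with h
    · exact p.he j n m u hn hm
    · exact q.he j n m u hn hm
  · intro j x hx n hn
    rw [Finset.mem_union] at hx
    by_cases h : (j, x) ∈ p.F
    · rw [if_pos (p.hF _ h)] at hn
      rw [if_pos h]
      exact p.ht j x h n hn
    · have hx' := hx.resolve_left h
      have hq := q.hF _ hx'
      rw [hNq j hq] at hn
      rw [if_neg h]
      exact q.ht j x hx' n hn
  · intro j x hx n hn m u hm hu
    rw [Finset.mem_union] at hx
    by_cases h : (j, x) ∈ p.F
    · rw [if_pos (p.hF _ h)] at hn hm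
      rw [if_pos h, if_pos h]
      exact p.hd j x h n hn m u hm hu
    · have hx' := hx.resolve_left h
      have hq := q.hF _ hx'
      rw [hNq j hq] at hn
      rw [heq j n hq hn] at hm
      rw [if_neg h, if_neg h]
      exact q.hd j x hx' n hn m u hm hu
  · refine ⟨fun j => ?_, fun j n hn => ?_, Finset.subset_union_left, fun j x hx n hn => ?_⟩
    · show p.N j ≤ if j ∈ p.D then p.N j else q.N j
      split_ifs with h
      · exact le_rfl
      · rw [p.hN j h]
        exact Nat.zero_le _
    · have h : j ∈ p.D := by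
        by_contra h
        rw [p.hN j h] at hn
        exact absurd hn (Nat.not_lt_zero _)
      show (if j ∈ p.D then p.e j n else q.e j n) = _
      rw [if_pos h]
    · show (if (j, x) ∈ p.F then p.tag j x n else q.tag j x n) = _
      rw [if_pos hx]
  · refine ⟨fun j => ?_, fun j n hn => ?_, Finset.subset_union_right, fun j x hx n hn => ?_⟩
    · show q.N j ≤ if j ∈ p.D then p.N j else q.N j
      by_cases h : j ∈ q.D
      · rw [hNq j h]
      · rw [q.hN j h]
        exact Nat.zero_le _
    · have h : j ∈ q.D := by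
        by_contra h
        rw [q.hN j h] at hn
        exact absurd hn (Nat.not_lt_zero _)
      exact heq j n h hn
    · exact htq j x n hx hn

/-- an enumeration of the elements below `y` -/
theorem exists_enc (y : Om) : ∃ c : Tag → Option (ℕ × ℕ), ∀ t t' : Tag,
    (t = ⊤ ∨ ∃ a k, t = tg a k ∧ a < y) → (t' = ⊤ ∨ ∃ a k, t' = tg a k ∧ a < y) → c t = c t' →
    t = t' := by
  classical
  have := countable_Iio y
  obtain ⟨g, hg⟩ := exists_injective_nat {b : Om // b < y}
  refine ⟨fun t => if h : ∃ a k, t = tg a k ∧ a < y then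
    some (g ⟨h.choose, h.choose_spec.choose_spec.2⟩, h.choose_spec.choose) else none, ?_⟩
  intro t t' h h' heq
  rcases h with h | h
  · rcases h' with h' | h'
    · rw [h, h']
    · exfalso
      have h2 : ¬ ∃ a k, t = tg a k ∧ a < y := by
        rintro ⟨a, k, h3, _⟩
        rw [h] at h3
        exact tg_ne_top h3.symm
      simp only [dif_neg h2, dif_pos h', reduceCtorEq] at heq
  · rcases h' with h' | h'
    · exfalso
      have h2 : ¬ ∃ a k, t' = tg a k ∧ a < y := by
        rintro ⟨a, k, h3, _⟩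
        rw [h'] at h3
        exact tg_ne_top h3.symm
      simp only [dif_neg h2, dif_pos h, reduceCtorEq] at heq
    · simp only [dif_pos h, dif_pos h', Option.some.injEq, Prod.mk.injEq] at heq
      have h3 := hg heq.1
      simp only [Subtype.mk.injEq] at h3
      exact h.choose_spec.choose_spec.1.trans
        ((congrArg₂ tg h3 heq.2).trans h'.choose_spec.choose_spec.1.symm)

/-- the countable chain condition -/
theorem ccc (A : Set (Cd J r)) (hanti : ∀ p ∈ A, ∀ q ∈ A, Compat p q → p = q) : A.Countable := by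
  classical
  by_contra hA
  obtain ⟨A', R, hA'A, hA', hR1, hR2⟩ := Pool.Agent.H151.delta_system dm A hA
  choose c hc using exists_enc
  let code : Cd J r → (R → ℕ × List (Finset (ℕ × List Bool)) × List (Option (ℕ × ℕ))) :=
    fun p t => (p.N t.1.1, (List.range (p.N t.1.1)).map (p.e t.1.1),
      match t.1.2 with
      | none => []
      | some y => (List.range (p.N t.1.1)).map fun n => c y (p.tag t.1.1 y n))
  obtain ⟨z, hz⟩ := Pool.Agent.H151.uncountable_fiber code A' hA'
  have hne : ¬ {p ∈ A' | code p = z}.Subsingleton := fun h => hz h.countable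
  rw [Set.not_subsingleton_iff] at hne
  obtain ⟨p, ⟨hp, hp'⟩, q, ⟨hq, hq'⟩, hpq⟩ := hne
  apply hpq
  refine hanti p (hA'A hp) q (hA'A hq) ?_
  have hmem : ∀ t, t ∈ dm p → t ∈ dm q → t ∈ R := hR2 p hp q hq hpq
  have hcode : code p = code q := hp'.trans hq'.symm
  have hNj : ∀ j o, (j, o) ∈ R → p.N j = q.N j := by
    intro j o hj
    have := congrFun hcode ⟨(j, o), hj⟩
    exact (Prod.mk.inj this).1
  refine compat_of_agree ?_ ?_ ?_
  · intro j h1 h2
    exact hNj j none (hmem _ (mem_dm_none.2 h1) (mem_dm_none.2 h2))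
  · intro j h1 h2 n hn
    have hj := hmem _ (mem_dm_none.2 h1) (mem_dm_none.2 h2)
    have h3 := congrFun hcode ⟨(j, none), hj⟩
    have h4 := (Prod.mk.inj (Prod.mk.inj h3).2).1
    have h5 : (List.range (p.N j)).map (p.e j) = (List.range (p.N j)).map (q.e j) := by
      have h6 : (List.range (p.N j)).map (p.e j) = (List.range (q.N j)).map (q.e j) := h4
      rwa [← hNj j none hj] at h6
    rw [List.map_inj_left] at h5
    exact h5 n (List.mem_range.2 hn)
  · intro j x h1 h2 n hn
    have hj := hmem _ (mem_dm_some.2 h1) (mem_dm_some.2 h2)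
    have h3 := congrFun hcode ⟨(j, some x), hj⟩
    have h4 := (Prod.mk.inj (Prod.mk.inj h3).2).2
    have h5 : (List.range (p.N j)).map (fun n => c x (p.tag j x n)) =
        (List.range (p.N j)).map fun n => c x (q.tag j x n) := by
      have h6 : (List.range (p.N j)).map (fun n => c x (p.tag j x n)) =
        (List.range (q.N j)).map fun n => c x (q.tag j x n) := h4
      rwa [← hNj j _ hj] at h6
    rw [List.map_inj_left] at h5
    have h6 := h5 n (List.mem_range.2 hn)
    refine hc x _ _ (p.ht j x h1 n hn) (q.ht j x h2 n ?_) h6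
    rwa [← hNj j _ hj]

theorem exists_antichain {E : Set (Cd J r)} (hE : ∀ p, ∃ s ≤ p, s ∈ E) :
    ∃ A ⊆ E, A.Countable ∧ ∀ p, ∃ a ∈ A, Compat a p := by
  obtain ⟨A, hA⟩ := zorn_subset {A : Set (Cd J r) | A ⊆ E ∧ ∀ a ∈ A, ∀ b ∈ A, Compat a b → a = b}
    (by
    intro c hc hchain
    refine ⟨⋃₀ c, ⟨sUnion_subset fun s hs => (hc hs).1, ?_⟩, fun s hs => subset_sUnion_of_mem hs⟩
    rintro a ⟨s, hs, ha⟩ b ⟨t, ht, hb⟩ hab
    rcases hchain.total hs ht with h | h
    · exact (hc ht).2 a (h ha) b hb hab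
    · exact (hc hs).2 a ha b (h hb) hab)
  refine ⟨A, hA.prop.1, ccc A hA.prop.2, fun p => ?_⟩
  by_contra hcon
  push Not at hcon
  obtain ⟨s, hs, hsE⟩ := hE p
  have h1 : insert s A ⊆ A := by
    refine hA.le_of_ge ⟨insert_subset hsE hA.prop.1, ?_⟩ (subset_insert _ _)
    rintro a (rfl | ha) b (rfl | hb) hab
    · rfl
    · exfalso
      obtain ⟨t, hs1, hs2⟩ := hab
      exact hcon b hb ⟨t, hs2, hs1.trans hs⟩
    · exfalso
      obtain ⟨t, hs1, hs2⟩ := hab
      exact hcon a ha ⟨t, hs1, hs2.trans hs⟩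
    · exact hA.prop.2 a ha b hb hab
  exact hcon s (h1 (mem_insert _ _)) ⟨s, le_rfl, hs⟩

end ccc

end Pool.Agent.H504.TS
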