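import Mathlib
import Pool.Agent.H504.UCDefs

/-!
# A statement on analytic sets and sigma-algebras, and the same statement in the forcing language

`Phi Λ` says that there is a set of reals (indexed by `K`) such that for every family of subsets
of `K` indexed by `Λ` the trace on it of some analytic set is not in the sigma-algebra generated
by the family. The analytic sets are given by codes `T`: the code attaches to a real `z ⊆ ℕ` the
directed graph on `ℕ` with an edge from `m` to `n` if `T m n u` for some initial segment `u` of
`z`, and the set coded by `T` consists of the reals whose graph has an infinite path from `0`.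
`ForcedPhi P Λ K` is the same formula in the forcing language of `Helper292.ForceCH`.
-/

set_option autoImplicit false

namespace Pool.Agent.H504.TS

open Pool.Agent.Helper292.ForceCH (fnot fand fall fimp fiff fex fground meets)
open Pool.Agent.H504.UC (FSame FMem)

/-- The finite sequence `u` of bits is an initial segment of (the characteristic function of)
the set `z`. -/
def PreSet (u : List Bool) (z : Set ℕ) : Prop :=
  ∀ (n : ℕ) (b : Bool), u[n]? = some b → (n ∈ z ↔ b = true)

/-- The real `z` is in the analytic set coded by `T`: some set `Y` contains `0`, and from every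
`m ∈ Y` there is an edge of the graph attached to `z` to some `n ∈ Y`. -/
def Ill (T : ℕ → ℕ → List Bool → Prop) (z : Set ℕ) : Prop :=
  ∃ Y : Set ℕ, 0 ∈ Y ∧ ∀ m, m ∈ Y → ∃ (n : ℕ) (u : List Bool), n ∈ Y ∧ T m n u ∧ PreSet u z

/-- There are distinct reals `x a`, `a ∈ K`, such that for every family `B` of subsets of `K`
indexed by `Λ` there are a code `T` of an analytic set and a family `S` of subsets of `K`,
containing all `B l`, closed under complements and under countable unions, such that
`{a | x a in the set coded by T}` is not in `S`. -/
def Phi (Λ : Type) : Prop :=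
  ∃ (K : Type) (x : K → Set ℕ), (∀ a b, (∀ n, n ∈ x a ↔ n ∈ x b) → a = b) ∧
    ∀ B : Λ → Set K, ∃ (T : ℕ → ℕ → List Bool → Prop) (S : Set (Set K)), (∀ l, B l ∈ S) ∧
      (∀ C C' : Set K, C ∈ S → (∀ b, b ∈ C' ↔ b ∉ C) → C' ∈ S) ∧
      (∀ (C : ℕ → Set K) (C' : Set K), (∀ n, C n ∈ S) → (∀ b, b ∈ C' ↔ ∃ n, b ∈ C n) → C' ∈ S) ∧
      ∀ C : Set K, (∀ a, a ∈ C ↔ Ill T (x a)) → C ∉ S

section

variable {P : Type} [Preorder P]

/-- `PreSet` in the extension. -/
def FPreSet (u : List Bool) (z : ℕ → Set P) : Set P :=
  fall fun n : ℕ => fall fun b : Bool => fall fun _ : u[n]? = some b =>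
    fiff (meets (z n)) (fground (b = true))

/-- `Ill` in the extension. -/
def FIll (T : ℕ → ℕ → List Bool → Set P) (z : ℕ → Set P) : Set P :=
  fex fun Y : ℕ → Set P => fand (meets (Y 0)) (fall fun m : ℕ => fimp (meets (Y m))
    (fex fun n : ℕ => fex fun u : List Bool =>
      fand (meets (Y n)) (fand (meets (T m n u)) (FPreSet u z))))

variable (P)

/-- `Phi Λ` in the extension, for the ground model sets `Λ` and `K`. -/
def ForcedPhi (Λ K : Type) : Set P :=
  fex fun x : K → ℕ → Set P =>
    fand (fall fun a => fall fun b => fimp (FSame (x a) (x b)) (fground (a = b)))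
      (fall fun B : Λ → K → Set P => fex fun T : ℕ → ℕ → List Bool → Set P =>
        fex fun S : (K → Set P) → Set P =>
          fand (fall fun l => FMem (B l) S)
            (fand (fall fun C : K → Set P => fall fun C' : K → Set P =>
                fimp (fand (FMem C S) (fall fun b => fiff (meets (C' b)) (fnot (meets (C b)))))
                  (FMem C' S))
              (fand (fall fun C : ℕ → K → Set P => fall fun C' : K → Set P =>
                  fimp (fand (fall fun n => FMem (C n) S)
                    (fall fun b => fiff (meets (C' b)) (fex fun n => meets (C n b))))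
                    (FMem C' S))
                (fall fun C : K → Set P =>
                  fimp (fall fun a => fiff (meets (C a)) (FIll T (x a))) (fnot (FMem C S))))))

end

end Pool.Agent.H504.TS
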