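import Mathlib
import Pool.Agent.H504.TSCond

set_option autoImplicit false

/-!
# Changing the high tags of a condition
-/

namespace Pool.Agent.H504.TS

open Cardinal Set
open Pool.Agent.Helper292.ForceCH (Om countable_Iio exists_bound)

variable {J : Type} {r : Om → ℕ → Bool}

/-- `p` and `p'` only differ in the tags at `(i, x)` which are at least `(β, 0)` in both -/
structure Ret (β : Om) (i : J) (x : Om) (p p' : Cd J r) : Prop where
  N : ∀ j, p.N j = p'.N j
  e : ∀ j n, n < p.N j → p.e j n = p'.e j n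
  F : p.F = p'.F
  tag : ∀ j y, (j, y) ∈ p.F → ¬ (j = i ∧ y = x) → ∀ n < p.N j, p.tag j y n = p'.tag j y n
  hi : (i, x) ∈ p.F → ∀ n < p.N i, p.tag i x n = p'.tag i x n ∨
    (tg β 0 ≤ p.tag i x n ∧ tg β 0 ≤ p'.tag i x n)

theorem Ret.symm {β : Om} {i : J} {x : Om} {p p' : Cd J r} (h : Ret β i x p p') :
    Ret β i x p' p where
  N j := (h.N j).symm
  e j n hn := (h.e j n (by rwa [h.N])).symm
  F := h.F.symm
  tag j y hy hne n hn := (h.tag j y (by rwa [h.F]) hne n (by rwa [h.N])).symm
  hi hx n hn := by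
    rcases h.hi (by rwa [h.F]) n (by rwa [h.N]) with h1 | ⟨h1, h2⟩
    · exact Or.inl h1.symm
    · exact Or.inr ⟨h2, h1⟩

theorem Ret.refl (β : Om) (i : J) (x : Om) (p : Cd J r) : Ret β i x p p :=
  ⟨fun _ => rfl, fun _ _ _ => rfl, rfl, fun _ _ _ _ _ _ => rfl, fun _ _ _ => Or.inl rfl⟩

theorem Ret.mono {β β' : Om} {i : J} {x : Om} {p p' : Cd J r} (h : Ret β i x p p') (hβ : β' ≤ β) :
    Ret β' i x p p' :=
  ⟨h.N, h.e, h.F, h.tag, fun hx n hn => by
    have h0 : tg β' 0 ≤ tg β 0 := by
      rw [tg_le]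
      rcases hβ.lt_or_eq with h1 | h1
      · exact Or.inl h1
      · exact Or.inr ⟨h1, le_rfl⟩
    rcases h.hi hx n hn with h1 | ⟨h1, h2⟩
    · exact Or.inl h1
    · exact Or.inr ⟨h0.trans h1, h0.trans h2⟩⟩

theorem allowed_min {x β' : Om} (hβ : β' < x) (t : Tag) (k : ℕ)
    (ht : t = ⊤ ∨ ∃ a k, t = tg a k ∧ a < x) :
    min t (tg β' k) = ⊤ ∨ ∃ a k', min t (tg β' k) = tg a k' ∧ a < x := by
  rcases le_total t (tg β' k) with h | h
  · rw [min_eq_left h]
    exact ht
  · rw [min_eq_right h]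
    exact Or.inr ⟨β', k, rfl, hβ⟩

/-- the extension property -/
theorem Ret.extend {β β' : Om} {i : J} {x : Om} {p p' q' : Cd J r} (h : Ret β i x p p')
    (hβ : β' < β) (hx : β' < x) (hq : q' ≤ p') : ∃ q ≤ p, Ret β' i x q q' := by
  classical
  obtain ⟨k1, k2, k3, k4⟩ := hq
  by_cases hix : (i, x) ∈ p.F
  · have hix' : (i, x) ∈ p'.F := by rwa [← h.F]
    have hixq : (i, x) ∈ q'.F := k3 hix'
    have hNle : p.N i ≤ q'.N i := by
      rw [h.N]
      exact k1 i
    -- the new tags
    let τ : ℕ → Tag := fun n => if n < p.N i then p.tag i x n else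
      min (q'.tag i x n) (tg β' (q'.N i - n))
    have τ1 : ∀ n, n < p.N i → τ n = p.tag i x n := fun n hn => if_pos hn
    have τ2 : ∀ n, ¬ n < p.N i → τ n = min (q'.tag i x n) (tg β' (q'.N i - n)) :=
      fun n hn => if_neg hn
    have hlt : ∀ k, tg β' k < tg β 0 := fun k => tg_lt.2 (Or.inl hβ)
    have hold : ∀ n, n < p.N i → τ n = q'.tag i x n ∨ (tg β 0 ≤ τ n ∧ tg β 0 ≤ q'.tag i x n) := by
      intro n hn
      rw [τ1 n hn, k4 i x hix' n (by rwa [← h.N])]
      exact h.hi hix n hn
    refine ⟨{ D := q'.D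
              N := q'.N
              e := q'.e
              F := q'.F
              tag := fun j y n => if j = i ∧ y = x then τ n else q'.tag j y n
              hN := q'.hN, hF := q'.hF, he := q'.he, ht := ?_, hd := ?_ }, ?_, ?_⟩
    · intro j y hy n hn
      by_cases hjy : j = i ∧ y = x
      · rw [if_pos hjy]
        obtain ⟨rfl, rfl⟩ := hjy
        by_cases hnp : n < p.N j
        · rw [τ1 n hnp]
          exact p.ht j y hix n hnp
        · rw [τ2 n hnp]
          exact allowed_min hx _ _ (q'.ht j y hy n hn)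
      · rw [if_neg hjy]
        exact q'.ht j y hy n hn
    · intro j y hy n hn m u hm hu
      by_cases hjy : j = i ∧ y = x
      · rw [if_pos hjy, if_pos hjy]
        obtain ⟨rfl, rfl⟩ := hjy
        have hmn : m < n := q'.he j n m u hn hm
        have hab := q'.hd j y hy n hn m u hm hu
        by_cases hnp : n < p.N j
        · have hmp := hmn.trans hnp
          rw [τ1 n hnp, τ1 m hmp]
          have hm' : (m, u) ∈ p.e j n := by
            rw [h.e j n hnp, ← k2 j n (by rwa [← h.N])]
            exact hm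
          exact p.hd j y hix n hnp m u hm' hu
        · rw [τ2 n hnp]
          by_cases hmp : m < p.N j
          · rcases hold m hmp with h1 | ⟨h1, _⟩
            · rw [h1]
              rcases hab with h2 | h2
              · exact Or.inl h2
              · exact Or.inr ((min_le_left _ _).trans_lt h2)
            · exact Or.inr ((min_le_right _ _).trans_lt ((hlt _).trans_le h1))
          · rw [τ2 m hmp]
            have hcap : tg β' (q'.N j - n) < tg β' (q'.N j - m) :=
              tg_lt.2 (Or.inr ⟨rfl, by omega⟩)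
            refine Or.inr ?_
            rcases hab with h2 | h2
            · rw [h2, min_eq_right le_top]
              exact (min_le_right _ _).trans_lt hcap
            · exact lt_min ((min_le_left _ _).trans_lt h2) ((min_le_right _ _).trans_lt hcap)
      · rw [if_neg hjy, if_neg hjy]
        exact q'.hd j y hy n hn m u hm hu
    · refine ⟨fun j => ?_, fun j n hn => ?_, ?_, fun j y hy n hn => ?_⟩
      · rw [h.N]
        exact k1 j
      · rw [h.e j n hn]
        exact k2 j n (by rwa [← h.N])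
      · show p.F ⊆ q'.F
        rw [h.F]
        exact k3
      · by_cases hjy : j = i ∧ y = x
        · show (if j = i ∧ y = x then τ n else q'.tag j y n) = _
          rw [if_pos hjy]
          obtain ⟨rfl, rfl⟩ := hjy
          exact τ1 n hn
        · show (if j = i ∧ y = x then τ n else q'.tag j y n) = _
          rw [if_neg hjy, h.tag j y hy hjy n hn]
          exact k4 j y (by rwa [← h.F]) n (by rwa [← h.N])
    · refine ⟨fun _ => rfl, fun _ _ _ => rfl, rfl, fun j y _ hne n _ => if_neg hne,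
        fun _ n hn => ?_⟩
      show (if i = i ∧ x = x then τ n else q'.tag i x n) = q'.tag i x n ∨
        (tg β' 0 ≤ (if i = i ∧ x = x then τ n else q'.tag i x n) ∧ tg β' 0 ≤ q'.tag i x n)
      rw [if_pos ⟨rfl, rfl⟩]
      by_cases hnp : n < p.N i
      · rcases hold n hnp with h1 | ⟨h1, h2⟩
        · exact Or.inl h1
        · exact Or.inr ⟨(hlt 0).le.trans h1, (hlt 0).le.trans h2⟩
      · rw [τ2 n hnp]
        rcases le_total (q'.tag i x n) (tg β' (q'.N i - n)) with h1 | h1
        · exact Or.inl (min_eq_left h1)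
        · rw [min_eq_right h1]
          have h2 : tg β' 0 ≤ tg β' (q'.N i - n) := tg_le.2 (Or.inr ⟨rfl, Nat.zero_le _⟩)
          exact Or.inr ⟨h2, h2.trans h1⟩
  · refine ⟨q', ⟨fun j => ?_, fun j n hn => ?_, ?_, fun j y hy n hn => ?_⟩, Ret.refl _ _ _ _⟩
    · rw [h.N]
      exact k1 j
    · rw [h.e j n hn]
      exact k2 j n (by rwa [← h.N])
    · rw [h.F]
      exact k3
    · have hjy : ¬ (j = i ∧ y = x) := by
        rintro ⟨rfl, rfl⟩
        exact hix hy
      rw [h.tag j y hy hjy n hn]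
      exact k4 j y (by rwa [← h.F]) n (by rwa [← h.N])

/-- a condition not mentioning `(i, x)` is above both or none -/
theorem Ret.le_of_le {β : Om} {i : J} {x : Om} {p p' a : Cd J r} (h : Ret β i x p p')
    (ha : (i, x) ∉ a.F) (hp : p ≤ a) : p' ≤ a := by
  obtain ⟨k1, k2, k3, k4⟩ := hp
  refine ⟨fun j => ?_, fun j n hn => ?_, ?_, fun j y hy n hn => ?_⟩
  · rw [← h.N]
    exact k1 j
  · rw [← h.e j n (hn.trans_le (k1 j))]
    exact k2 j n hn
  · rw [← h.F]
    exact k3
  · have hjy : ¬ (j = i ∧ y = x) := by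
      rintro ⟨rfl, rfl⟩
      exact ha hy
    rw [← h.tag j y (k3 hy) hjy n (hn.trans_le (k1 j))]
    exact k4 j y hy n hn

/-- adding a node -/
theorem exists_addNode (p : Cd J r) (i : J) (E : Finset (ℕ × List Bool))
    (hE : ∀ m u, (m, u) ∈ E → m < p.N i)
    (hE' : ∀ y, (i, y) ∈ p.F → ∀ m u, (m, u) ∈ E → Pre u (r y) → p.tag i y m = ⊤) :
    ∃ q ≤ p, q.N i = p.N i + 1 ∧ q.e i (p.N i) = E ∧ q.F = p.F ∧
      ∀ y, q.tag i y (p.N i) = ⊤ := by
  classical
  have hN1 : ∀ j n, n < (if j = i then p.N j + 1 else p.N j) → ¬ (j = i ∧ n = p.N i) →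
      n < p.N j := by
    intro j n hn hne
    by_cases hj : j = i
    · rw [if_pos hj] at hn
      subst hj
      have : n ≠ p.N j := fun h => hne ⟨rfl, h⟩
      omega
    · rwa [if_neg hj] at hn
  refine ⟨{ D := insert i p.D
            N := fun j => if j = i then p.N j + 1 else p.N j
            e := fun j n => if j = i ∧ n = p.N i then E else p.e j n
            F := p.F
            tag := fun j y n => if j = i ∧ n = p.N i then ⊤ else p.tag j y n
            hN := ?_, hF := ?_, he := ?_, ht := ?_, hd := ?_ }, ⟨fun j => ?_, fun j n hn => ?_,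
              Finset.Subset.refl _, fun j y hy n hn => ?_⟩, ?_, ?_, rfl, fun y => ?_⟩
  · intro j hj
    rw [Finset.mem_insert, not_or] at hj
    rw [if_neg hj.1]
    exact p.hN j hj.2
  · intro y hy
    exact Finset.mem_insert_of_mem (p.hF y hy)
  · intro j n m u hn hm
    by_cases h : j = i ∧ n = p.N i
    · rw [if_pos h] at hm
      rw [h.2]
      exact hE m u hm
    · rw [if_neg h] at hm
      exact p.he j n m u (hN1 j n hn h) hm
  · intro j y hy n hn
    by_cases h : j = i ∧ n = p.N i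
    · rw [if_pos h]
      exact Or.inl rfl
    · rw [if_neg h]
      exact p.ht j y hy n (hN1 j n hn h)
  · intro j y hy n hn m u hm hu
    by_cases h : j = i ∧ n = p.N i
    · rw [if_pos h] at hm
      have hmi := hE m u hm
      have h2 : ¬ (j = i ∧ m = p.N i) := fun h3 => by
        rw [h3.2] at hmi
        exact lt_irrefl _ hmi
      rw [if_neg h2]
      obtain ⟨rfl, rfl⟩ := h
      exact Or.inl (hE' y hy m u hm hu)
    · rw [if_neg h] at hm ⊢
      have hn' := hN1 j n hn h
      have hmn := p.he j n m u hn' hm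
      have h2 : ¬ (j = i ∧ m = p.N i) := by
        rintro ⟨rfl, rfl⟩
        omega
      rw [if_neg h2]
      exact p.hd j y hy n hn' m u hm hu
  · show p.N j ≤ if j = i then p.N j + 1 else p.N j
    split_ifs
    · exact Nat.le_succ _
    · exact le_rfl
  · show (if j = i ∧ n = p.N i then E else p.e j n) = _
    rw [if_neg]
    rintro ⟨rfl, rfl⟩
    exact lt_irrefl _ hn
  · show (if j = i ∧ n = p.N i then ⊤ else p.tag j y n) = _
    rw [if_neg]
    rintro ⟨rfl, rfl⟩
    exact lt_irrefl _ hn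
  · show (if i = i then p.N i + 1 else p.N i) = _
    rw [if_pos rfl]
  · show (if i = i ∧ p.N i = p.N i then E else _) = _
    rw [if_pos ⟨rfl, rfl⟩]
  · show (if i = i ∧ p.N i = p.N i then ⊤ else _) = _
    rw [if_pos ⟨rfl, rfl⟩]

/-- giving tags to the nodes for a new real -/
theorem exists_activate (p : Cd J r) (i : J) (x : Om) (hi : i ∈ p.D) (hx : (i, x) ∉ p.F)
    (τ : ℕ → Tag) (hτ : ∀ n < p.N i, τ n = ⊤ ∨ ∃ a k, τ n = tg a k ∧ a < x)
    (hτ' : ∀ n < p.N i, ∀ m < n, τ m = ⊤ ∨ τ n < τ m) :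
    ∃ q : Cd J r, q ≤ p ∧ q.N = p.N ∧ q.e = p.e ∧ (∀ y, y ∈ q.F ↔ y = (i, x) ∨ y ∈ p.F) ∧
      (∀ n, q.tag i x n = τ n) ∧ ∀ j y, ¬ (j = i ∧ y = x) → ∀ n, q.tag j y n = p.tag j y n := by
  classical
  refine ⟨{ D := p.D
            N := p.N
            e := p.e
            F := insert (i, x) p.F
            tag := fun j y n => if j = i ∧ y = x then τ n else p.tag j y n
            hN := p.hN, hF := ?_, he := p.he, ht := ?_, hd := ?_ }, ⟨fun j => le_rfl,
              fun j n hn => rfl, Finset.subset_insert _ _, fun j y hy n hn => ?_⟩, rfl, rfl,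
              fun y => Finset.mem_insert, fun n => if_pos ⟨rfl, rfl⟩,
              fun j y h n => if_neg h⟩
  · intro y hy
    rcases Finset.mem_insert.1 hy with h | h
    · rw [h]
      exact hi
    · exact p.hF y h
  · intro j y hy n hn
    by_cases h : j = i ∧ y = x
    · rw [if_pos h]
      obtain ⟨rfl, rfl⟩ := h
      exact hτ n hn
    · rw [if_neg h]
      refine p.ht j y ((Finset.mem_insert.1 hy).resolve_left fun h1 => h ?_) n hn
      exact Prod.mk.inj h1
  · intro j y hy n hn m u hm hu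
    by_cases h : j = i ∧ y = x
    · rw [if_pos h, if_pos h]
      obtain ⟨rfl, rfl⟩ := h
      exact hτ' n hn m (p.he j n m u hn hm)
    · rw [if_neg h, if_neg h]
      refine p.hd j y ((Finset.mem_insert.1 hy).resolve_left fun h1 => h ?_) n hn m u hm hu
      exact Prod.mk.inj h1
  · show (if j = i ∧ y = x then τ n else p.tag j y n) = _
    rw [if_neg]
    rintro ⟨rfl, rfl⟩
    exact hx hy

/-- a real may be given the tag `⊤` or a high tag at the node `0` -/
theorem exists_pair (p : Cd J r) (i : J) (x : Om) (hx : (i, x) ∉ p.F) {β : Om} (hβ : β < x) :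
    ∃ p1 ≤ p, ∃ p2 ≤ p, Ret β i x p1 p2 ∧ ((i, x) ∈ p1.F ∧ 0 < p1.N i ∧ p1.tag i x 0 = ⊤) ∧
      ((i, x) ∈ p2.F ∧ 0 < p2.N i ∧ p2.tag i x 0 ≠ ⊤) := by
  obtain ⟨q, hq, hN, _, hF, _⟩ := exists_addNode p i ∅ (by simp) (by simp)
  have hi : i ∈ q.D := by
    by_contra h
    have := q.hN i h
    omega
  have hxq : (i, x) ∉ q.F := by rwa [hF]
  obtain ⟨p1, h1, a1, a2, a3, a4, a5⟩ := exists_activate q i x hi hxq (fun _ => ⊤)
    (fun _ _ => Or.inl rfl) (fun _ _ _ _ => Or.inl rfl)
  obtain ⟨p2, h2, b1, b2, b3, b4, b5⟩ := exists_activate q i x hi hxq (fun n => tg β (q.N i - n))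
    (fun n _ => Or.inr ⟨β, _, rfl, hβ⟩)
    (fun n hn m hm => Or.inr (tg_lt.2 (Or.inr ⟨rfl, by omega⟩)))
  refine ⟨p1, h1.trans hq, p2, h2.trans hq, ?_, ⟨(a3 _).2 (Or.inl rfl), ?_, a4 0⟩,
    ⟨(b3 _).2 (Or.inl rfl), ?_, ?_⟩⟩
  · refine ⟨fun j => by rw [a1, b1], fun j n _ => by rw [a2, b2], ?_, fun j y _ hne n _ => ?_,
      fun _ n _ => ?_⟩
    · ext y
      rw [a3, b3]
    · rw [a5 j y hne, b5 j y hne]
    · rw [a4, b4]
      exact Or.inr ⟨le_top, tg_le.2 (Or.inr ⟨rfl, Nat.zero_le _⟩)⟩
  · rw [a1, hN]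
    exact Nat.succ_pos _
  · rw [b1, hN]
    exact Nat.succ_pos _
  · rw [b4]
    exact tg_ne_top

/-- an initial segment of a real -/
def seg (z : ℕ → Bool) (L : ℕ) : List Bool := (List.range L).map z

theorem getElem?_seg (z : ℕ → Bool) {L n : ℕ} (h : n < L) : (seg z L)[n]? = some (z n) := by
  unfold seg
  rw [List.getElem?_map, List.getElem?_range h]
  rfl

theorem pre_seg (z : ℕ → Bool) (L : ℕ) : Pre (seg z L) z := by
  intro n b h
  by_cases hn : n < L
  · rw [getElem?_seg z hn] at h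
    exact Option.some.inj h
  · exfalso
    rw [List.getElem?_eq_none (by simpa [seg] using hn)] at h
    exact absurd h (by simp)

/-- a long initial segment of `r x` is not an initial segment of the finitely many `r y` -/
theorem exists_seg (hr : Function.Injective r) (x : Om) (Y : Finset Om) :
    ∃ L, ∀ y ∈ Y, y ≠ x → ¬ Pre (seg (r x) L) (r y) := by
  classical
  have h1 : ∀ y : Om, ∃ k, y ≠ x → r y k ≠ r x k := by
    intro y
    by_cases h : y = x
    · exact ⟨0, fun h' => absurd h h'⟩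
    · have h2 : r y ≠ r x := fun h' => h (hr h')
      obtain ⟨k, hk⟩ := Function.ne_iff.1 h2
      exact ⟨k, fun _ => hk⟩
  choose k hk using h1
  refine ⟨Y.sup k + 1, fun y hy hne hpre => ?_⟩
  have h2 : k y < Y.sup k + 1 := Nat.lt_succ_of_le (Finset.le_sup hy)
  exact hk y hne (hpre _ _ (getElem?_seg (r x) h2))

/-- a node with the tag `⊤` has a child with the tag `⊤` -/
theorem exists_child (hr : Function.Injective r) (p : Cd J r) (i : J) (x : Om) (m : ℕ)
    (hm : m < p.N i) (htop : p.tag i x m = ⊤) :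
    ∃ q ≤ p, ∃ n u, n < q.N i ∧ (m, u) ∈ q.e i n ∧ Pre u (r x) ∧ q.tag i x n = ⊤ := by
  classical
  obtain ⟨L, hL⟩ := exists_seg hr x (p.F.image Prod.snd)
  obtain ⟨q, hq, hN, he, _, ht⟩ := exists_addNode p i {(m, seg (r x) L)} (by
    intro m' u h
    rw [Finset.mem_singleton, Prod.mk.injEq] at h
    rw [h.1]
    exact hm) (by
    intro y hy m' u h hu
    rw [Finset.mem_singleton, Prod.mk.injEq] at h
    obtain ⟨rfl, rfl⟩ := h
    by_cases hyx : y = x
    · rw [hyx]
      exact htop
    · exact absurd hu (hL y (Finset.mem_image_of_mem Prod.snd hy) hyx))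
  refine ⟨q, hq, p.N i, seg (r x) L, by omega, ?_, pre_seg _ _, ht x⟩
  rw [he]
  exact Finset.mem_singleton_self _

end Pool.Agent.H504.TS
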