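import Mathlib
import Pool.Agent.H504.TSRet
import Pool.Agent.H504.TSDefs

set_option autoImplicit false

/-!
# Names which do not see the high tags
-/

namespace Pool.Agent.H504.TS

open Cardinal Set
open Pool.Agent.Helper292.ForceCH (Om countable_Iio exists_bound fnot fand fall fimp fiff fex
  fground meets mem_fex mem_fimp Down down_fnot down_fand down_fall down_fex down_fimp down_meets)
open Pool.Agent.H504.UC (FSame FMem cst mem_FSame mem_FMem_cst_of reg_meets reg_fnot reg_fex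
  mem_fiff_reg meets_of_mem Reg)

variable {J : Type} {r : Om → ℕ → Bool}

theorem exists_gt (a : Om) : ∃ b, a < b := by
  obtain ⟨b, hb⟩ := exists_bound fun _ => a
  exact ⟨b, hb 0⟩

/-- the sentence `φ` does not see the tags at `(i, x)` above the level `β` -/
def Inv (β : Om) (i : J) (x : Om) (φ : Set (Cd J r)) : Prop :=
  ∀ p p' : Cd J r, Ret β i x p p' → p ∈ φ → p' ∈ φ

theorem Inv.mono {β β' : Om} {i : J} {x : Om} {φ : Set (Cd J r)} (h : Inv β i x φ) (hβ : β ≤ β') :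
    Inv β' i x φ := fun p p' hp => h p p' (hp.mono hβ)

/-- the names which do not see the high tags at `i` -/
def Cls (i : J) : Set (Om → Set (Cd J r)) := {C | ∃ β : Om, ∀ x, β < x → Inv β i x (meets (C x))}

/-- a set of conditions given up to low tags -/
theorem inv_meets {β β' β'' : Om} (h1 : β'' < β') (h2 : β' < β) {i : J} {x : Om} (hx : β < x)
    {N : Set (Cd J r)}
    (hN : ∀ p p' : Cd J r, Ret β'' i x p p' → (∃ s ∈ N, p ≤ s) → ∃ s ∈ N, p' ≤ s) :
    Inv β i x (meets N) := by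
  intro p p' hpp hp q' hq'
  obtain ⟨q, hq, hqq⟩ := hpp.extend h2 (h2.trans hx) hq'
  obtain ⟨s, hs, t, ht, hst⟩ := hp q hq
  obtain ⟨s', hs', hss⟩ := hqq.symm.extend h1 ((h1.trans h2).trans hx) hs
  obtain ⟨t', ht', hst'⟩ := hN s s' hss.symm ⟨t, ht, hst⟩
  exact ⟨s', hs', t', ht', hst'⟩

theorem Inv.fnot {β β' : Om} (h1 : β' < β) {i : J} {x : Om} (hx : β < x) {φ : Set (Cd J r)}
    (h : Inv β' i x φ) : Inv β i x (fnot φ) := by
  intro p p' hpp hp q' hq' hq'φ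
  obtain ⟨q, hq, hqq⟩ := hpp.extend h1 (h1.trans hx) hq'
  exact hp q hq (h q' q hqq.symm hq'φ)

/-- mixing -/
theorem mixing {i : J} {C : Om → Set (Cd J r)} {q : Cd J r} (hq : q ∈ FMem C (cst (Cls i))) :
    ∃ C' ∈ Cls (r := r) i, q ∈ FSame C' C := by
  classical
  obtain ⟨A, hAE, hAc, hApre⟩ := exists_antichain
    (E := {s : Cd J r | (∃ C' ∈ Cls (r := r) i, s ∈ FSame C' C) ∨ ¬ Compat s q}) (by
      intro p
      by_cases h : Compat p q
      · obtain ⟨s, h1, h2⟩ := h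
        obtain ⟨t, ht, C', h3, h4⟩ := mem_fex.1 hq s h2
        obtain ⟨_, _, _, h5, _⟩ := h3 t le_rfl
        exact ⟨t, ht.trans h1, Or.inl ⟨C', h5, h4⟩⟩
      · exact ⟨p, le_rfl, Or.inr h⟩)
  -- the good members
  have hch : ∀ a : Cd J r, ∃ (C' : Om → Set (Cd J r)) (β : Om),
      ((∃ C' ∈ Cls (r := r) i, a ∈ FSame C' C) →
        (a ∈ FSame C' C ∧ ∀ x, β < x → Inv β i x (meets (C' x)))) ∧ ∀ x, (i, x) ∈ a.F → x ≤ β := by
    intro a
    obtain ⟨γ, hγ⟩ : ∃ γ : Om, ∀ x, (i, x) ∈ a.F → x ≤ γ := by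
      have h1 : {x | (i, x) ∈ a.F}.Countable := by
        refine ((a.F.finite_toSet.image Prod.snd).subset ?_).countable
        intro x hx
        exact ⟨(i, x), hx, rfl⟩
      rcases Set.eq_empty_or_nonempty {x | (i, x) ∈ a.F} with h2 | h2
      · obtain ⟨γ, _⟩ := exists_bound fun _ => (Classical.arbitrary Om)
        exact ⟨γ, fun x hx => absurd (show x ∈ {x | (i, x) ∈ a.F} from hx) (by rw [h2]; simp)⟩
      · obtain ⟨f, hf⟩ := h1.exists_eq_range h2
        obtain ⟨γ, hγ⟩ := exists_bound f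
        refine ⟨γ, fun x hx => ?_⟩
        have : x ∈ range f := by rw [← hf]; exact hx
        obtain ⟨n, rfl⟩ := this
        exact (hγ n).le
    by_cases h : ∃ C' ∈ Cls (r := r) i, a ∈ FSame C' C
    · obtain ⟨C', ⟨β, hβ⟩, h2⟩ := h
      refine ⟨C', max β γ, ⟨fun _ => ⟨h2, fun x hx => ?_⟩, fun x hx => ?_⟩⟩
      · exact (hβ x ((le_max_left _ _).trans_lt hx)).mono (le_max_left _ _)
      · exact (hγ x hx).trans (le_max_right _ _)
    · exact ⟨fun _ => ∅, γ, fun h' => absurd h' h, hγ⟩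
  choose F b hF hb using hch
  obtain ⟨β'', hβ''⟩ : ∃ β'' : Om, ∀ a ∈ A, b a ≤ β'' := by
    rcases A.eq_empty_or_nonempty with h2 | h2
    · exact ⟨Classical.arbitrary Om, fun a ha => absurd ha (by rw [h2]; simp)⟩
    · obtain ⟨f, hf⟩ := hAc.exists_eq_range h2
      obtain ⟨γ, hγ⟩ := exists_bound fun n => b (f n)
      refine ⟨γ, fun a ha => ?_⟩
      rw [hf] at ha
      obtain ⟨n, rfl⟩ := ha
      exact (hγ n).le
  let G : Set (Cd J r) := {a ∈ A | ∃ C' ∈ Cls (r := r) i, a ∈ FSame C' C}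
  let M : Om → Set (Cd J r) := fun y => {s | ∃ a ∈ G, s ≤ a ∧ s ∈ meets (F a y)}
  have hMdown : ∀ y, Down (M y) := by
    rintro y s ⟨a, ha, h1, h2⟩ t ht
    exact ⟨a, ha, ht.trans h1, down_meets _ _ h2 _ ht⟩
  obtain ⟨β', hβ'⟩ := exists_gt β''
  obtain ⟨β, hβ⟩ := exists_gt β'
  refine ⟨M, ⟨β, fun x hx => ?_⟩, ?_⟩
  · refine inv_meets hβ' hβ hx ?_
    rintro p p' hpp ⟨s, hs, hps⟩
    have hp : p ∈ M x := hMdown x _ hs _ hps
    obtain ⟨a, ha, h1, h2⟩ := hp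
    refine ⟨p', ⟨a, ha, hpp.le_of_le ?_ h1, ?_⟩, le_rfl⟩
    · intro h3
      exact absurd ((hb a x h3).trans (hβ'' a ha.1)) (not_le.2 ((hβ'.trans hβ).trans hx))
    · have h3 := (hF a ha.2).2 x ((hβ'' a ha.1).trans_lt ((hβ'.trans hβ).trans hx))
      exact (h3.mono (hβ'' a ha.1)) p p' hpp h2
  · rw [mem_FSame]
    intro y q' hq'
    constructor
    · intro h
      refine (reg_meets _).2 q' fun s hs => ?_
      obtain ⟨t, ht, u, ⟨a, ha, hua, hu⟩, htu⟩ := h s hs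
      refine ⟨t, ht, ?_⟩
      exact (mem_FSame.1 (hF a ha.2).1 y t (htu.trans hua)).1 (down_meets _ _ hu _ htu)
    · intro h s hs
      obtain ⟨a, haA, t, ht1, ht2⟩ := hApre s
      have ha : a ∈ G := by
        refine ⟨haA, ?_⟩
        rcases hAE haA with h1 | h1
        · exact h1
        · exact absurd ⟨t, ht1, (ht2.trans hs).trans hq'⟩ h1
      have h3 : t ∈ meets (C y) := down_meets _ _ h _ (ht2.trans hs)
      have h4 : t ∈ meets (F a y) := (mem_FSame.1 (hF a ha.2).1 y t ht1).2 h3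
      exact ⟨t, ht2, t, ⟨a, ha, ht1, h4⟩, le_rfl⟩

theorem reg_meets_eq {φ : Set (Cd J r)} (h : Reg φ) : meets φ = φ := by
  ext p
  constructor
  · intro hp
    refine h.2 p fun q hq => ?_
    obtain ⟨s, hs, t, ht, hst⟩ := hp q hq
    exact ⟨s, hs, h.1 _ ht _ hst⟩
  · exact meets_of_mem

/-- closure under complements -/
theorem cls_compl (i : J) (p : Cd J r) (C C' : Om → Set (Cd J r)) :
    p ∈ fimp (fand (FMem C (cst (Cls i))) (fall fun b => fiff (meets (C' b))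
      (fnot (meets (C b))))) (FMem C' (cst (Cls i))) := by
  rw [mem_fimp]
  rintro q _ ⟨h1, h2⟩
  refine ⟨q, le_rfl, ?_⟩
  obtain ⟨C1, ⟨β', hinv⟩, h3⟩ := mixing h1
  obtain ⟨β, hβ⟩ := exists_gt β'
  refine mem_FMem_cst_of (C' := fun b => fnot (meets (C1 b))) ⟨β, fun x hx => ?_⟩ ?_
  · rw [reg_meets_eq (reg_fnot (down_meets _))]
    exact (hinv x (hβ.trans hx)).fnot hβ hx
  rw [mem_FSame] at h3 ⊢
  intro b s hs
  have h4 := (mem_fiff_reg (reg_meets _) (reg_fnot (down_meets _))).1 (h2 b) s hs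
  rw [h4, reg_meets_eq (reg_fnot (down_meets _))]
  constructor
  · intro h t ht ht'
    exact h t ht ((h3 b t (ht.trans hs)).2 ht')
  · intro h t ht ht'
    exact h t ht ((h3 b t (ht.trans hs)).1 ht')

/-- closure under countable unions -/
theorem cls_union (i : J) (p : Cd J r) (C : ℕ → Om → Set (Cd J r)) (C' : Om → Set (Cd J r)) :
    p ∈ fimp (fand (fall fun n => FMem (C n) (cst (Cls i))) (fall fun b => fiff (meets (C' b))
      (fex fun n => meets (C n b)))) (FMem C' (cst (Cls i))) := by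
  rw [mem_fimp]
  rintro q _ ⟨h1, h2⟩
  refine ⟨q, le_rfl, ?_⟩
  choose C1 hC1 h3 using fun n => mixing (h1 n)
  choose b hb using hC1
  obtain ⟨β'', hβ''⟩ := exists_bound b
  obtain ⟨β', hβ'⟩ := exists_gt β''
  obtain ⟨β, hβ⟩ := exists_gt β'
  refine mem_FMem_cst_of (C' := fun y => {s | ∃ n, s ∈ meets (C1 n y)}) ⟨β, fun x hx => ?_⟩ ?_
  · refine inv_meets hβ' hβ hx ?_
    rintro p p' hpp ⟨s, ⟨n, hn⟩, hps⟩
    refine ⟨p', ⟨n, ?_⟩, le_rfl⟩
    have h4 := hb n x ((hβ'' n).trans ((hβ'.trans hβ).trans hx))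
    exact (h4.mono (hβ'' n).le) p p' hpp (down_meets _ _ hn _ hps)
  · rw [mem_FSame]
    intro y s hs
    have h4 := (mem_fiff_reg (reg_meets _) (reg_fex _)).1 (h2 y) s hs
    rw [h4, mem_fex]
    constructor
    · intro h t ht
      obtain ⟨t', ht', u, ⟨n, hn⟩, htu⟩ := h t ht
      refine ⟨t', ht', n, ?_⟩
      exact (mem_FSame.1 (h3 n) y t' ((ht'.trans ht).trans hs)).1 (down_meets _ _ hn _ htu)
    · intro h t ht
      obtain ⟨t', ht', n, hn⟩ := h t ht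
      refine ⟨t', ht', t', ⟨n, ?_⟩, le_rfl⟩
      exact (mem_FSame.1 (h3 n) y t' ((ht'.trans ht).trans hs)).2 hn

/-- replacing a name by one with a countable support -/
theorem exists_countable_name (N : Set (Cd J r)) :
    ∃ N' : Set (Cd J r), N'.Countable ∧ meets N' = meets N := by
  classical
  obtain ⟨A, hAE, hAc, hApre⟩ := exists_antichain
    (E := {s : Cd J r | (∃ t ∈ N, s ≤ t) ∨ ∀ s' ≤ s, ¬ ∃ t ∈ N, s' ≤ t}) (by
      intro p
      by_cases h : ∃ s ≤ p, ∃ t ∈ N, s ≤ t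
      · obtain ⟨s, hs, h1⟩ := h
        exact ⟨s, hs, Or.inl h1⟩
      · refine ⟨p, le_rfl, Or.inr fun s' hs' h1 => h ⟨s', hs', h1⟩⟩)
  refine ⟨{a ∈ A | ∃ t ∈ N, a ≤ t}, hAc.mono (sep_subset _ _), ?_⟩
  ext p
  constructor
  · intro h q hq
    obtain ⟨s, hs, a, ⟨_, t, ht, hat⟩, hsa⟩ := h q hq
    exact ⟨s, hs, t, ht, hsa.trans hat⟩
  · intro h q hq
    obtain ⟨s, hs, t, ht, hst⟩ := h q hq
    obtain ⟨a, haA, w, hw1, hw2⟩ := hApre s
    refine ⟨w, hw2.trans hs, a, ⟨haA, ?_⟩, hw1⟩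
    rcases hAE haA with h1 | h1
    · exact h1
    · exact absurd ⟨t, ht, hw2.trans hst⟩ (h1 w hw1)

/-- names which do not mention `i` are in the class -/
theorem mem_cls_of_supp {i : J} {C : Om → Set (Cd J r)} (h : ∀ x, ∀ s ∈ C x, i ∉ s.D) :
    C ∈ Cls (r := r) i := by
  obtain ⟨β', hβ'⟩ := exists_gt (Classical.arbitrary Om)
  obtain ⟨β, hβ⟩ := exists_gt β'
  refine ⟨β, fun x hx => inv_meets hβ' hβ hx ?_⟩
  rintro p p' hpp ⟨s, hs, hps⟩
  exact ⟨s, hs, hpp.le_of_le (fun h1 => h x s hs (s.hF _ h1)) hps⟩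

end Pool.Agent.H504.TS
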