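import Mathlib
import Pool.Agent.H504.TSMix

set_option autoImplicit false

/-!
# The forcing notion forces `Phi Λ`
-/

namespace Pool.Agent.H504.TS

open Cardinal Set
open Pool.Agent.Helper292.ForceCH (Om countable_Iio exists_bound fnot fand fall fimp fiff fex
  fground meets mem_fex mem_fimp Down down_fnot down_fand down_fall down_fex down_fimp down_meets)
open Pool.Agent.H504.UC (FSame FMem cst mem_FSame mem_FMem_cst_of reg_meets reg_fnot reg_fex
  mem_fiff_reg meets_of_mem Reg down_FMem down_FSame mem_fex_of down_fiff)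

section

variable {J : Type} {r : Om → ℕ → Bool}

theorem reg_fground (h : Prop) : Reg (fground (P := Cd J r) h) :=
  ⟨fun _ hp _ _ => hp, fun p hp => by
    obtain ⟨_, _, h1⟩ := hp p le_rfl
    exact h1⟩

/-- the names of the reals -/
def xs (a : Om) (n : ℕ) : Set (Cd J r) := {_p | r a n = true}

theorem mem_meets_xs {a : Om} {n : ℕ} {p : Cd J r} : p ∈ meets (xs a n) ↔ r a n = true := by
  constructor
  · intro h
    obtain ⟨_, _, _, h1, _⟩ := h p le_rfl
    exact h1
  · intro h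
    exact meets_of_mem h

theorem mem_FPreSet {u : List Bool} {a : Om} {p : Cd J r} :
    p ∈ FPreSet u (xs a) ↔ Pre u (r a) := by
  constructor
  · intro h n b hb
    have h1 := (mem_fiff_reg (reg_meets _) (reg_fground _)).1 (h n b hb) p le_rfl
    rw [mem_meets_xs] at h1
    have h2 : r a n = true ↔ b = true := h1
    cases hb' : b
    · rw [hb'] at h2
      cases h3 : r a n
      · rfl
      · exact absurd (h2.1 h3) (by simp)
    · rw [hb'] at h2
      exact h2.2 rfl
  · intro h n b hb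
    refine (mem_fiff_reg (reg_meets _) (reg_fground _)).2 fun q _ => ?_
    rw [mem_meets_xs, h n b hb]
    rfl

/-- the generic code -/
def gen (i : J) (m n : ℕ) (u : List Bool) : Set (Cd J r) := {s | n < s.N i ∧ (m, u) ∈ s.e i n}

theorem down_gen (i : J) (m n : ℕ) (u : List Bool) : Down (gen (r := r) i m n u) := by
  rintro p ⟨h1, h2⟩ q hq
  refine ⟨h1.trans_le (hq.1 i), ?_⟩
  rw [hq.2.1 i n h1]
  exact h2

theorem ill_of_top (hr : Function.Injective r) {i : J} {x : Om} {p : Cd J r} (hF : (i, x) ∈ p.F)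
    (h0 : 0 < p.N i) (htop : p.tag i x 0 = ⊤) : p ∈ FIll (gen i) (xs x) := by
  let Y : ℕ → Set (Cd J r) := fun m => {s | (i, x) ∈ s.F ∧ m < s.N i ∧ s.tag i x m = ⊤}
  have hY : ∀ m, Down (Y m) := by
    rintro m s ⟨h1, h2, h3⟩ t ht
    refine ⟨ht.2.2.1 h1, h2.trans_le (ht.1 i), ?_⟩
    rw [ht.2.2.2 i x h1 m h2]
    exact h3
  refine mem_fex_of Y (down_fand (down_meets _) (down_fall fun _ => down_fimp _ _))
    ⟨meets_of_mem ⟨hF, h0, htop⟩, fun m => mem_fimp.2 fun q _ hq => ?_⟩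
  obtain ⟨t, ht, s, hs, hts⟩ := hq q le_rfl
  obtain ⟨h1, h2, h3⟩ := hY m _ hs _ hts
  obtain ⟨w, hw, n, u, hn, hm, hu, hwn⟩ := exists_child hr t i x m h2 h3
  refine ⟨w, hw.trans ht, ?_⟩
  refine mem_fex_of n (down_fex _) (mem_fex_of u ?_ ⟨?_, ?_, ?_⟩)
  · exact down_fand (down_meets _) (down_fand (down_meets _) fun p hp q _ =>
      mem_FPreSet.2 (mem_FPreSet.1 hp))
  · exact meets_of_mem ⟨hw.2.2.1 h1, hn, hwn⟩
  · exact meets_of_mem ⟨hn, hm⟩
  · exact mem_FPreSet.2 hu

theorem not_ill {i : J} {x : Om} {p : Cd J r} (hF : (i, x) ∈ p.F)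
    (h0 : 0 < p.N i) (htop : p.tag i x 0 ≠ ⊤) : p ∉ FIll (gen i) (xs x) := by
  intro h
  obtain ⟨s, hs, Y, hY0, hY⟩ := mem_fex.1 h p le_rfl
  have key : ∀ τ : Tag, τ ≠ ⊤ → ∀ m, ∀ s' ≤ s, s' ∈ meets (Y m) → m < s'.N i →
      s'.tag i x m = τ → False := by
    intro τ
    induction τ using WellFoundedLT.induction with
    | ind τ ih =>
      intro hτ m s' hs' hs'Y hm htag
      obtain ⟨t, ht, h1⟩ := mem_fimp.1 (hY m) s' hs' hs'Y
      obtain ⟨t1, ht1, n, h2⟩ := mem_fex.1 h1 t le_rfl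
      obtain ⟨t2, ht2, u, h3, h4, h5⟩ := mem_fex.1 h2 t1 le_rfl
      obtain ⟨t3, ht3, w, hw, htw⟩ := h4 t2 le_rfl
      obtain ⟨h6, h7⟩ := down_gen i m n u _ hw _ htw
      have hle : t3 ≤ s' := ((ht3.trans ht2).trans ht1).trans ht
      have hF' : (i, x) ∈ s'.F := (hs'.trans hs).2.2.1 hF
      have h8 : t3.tag i x m = τ := by
        rw [hle.2.2.2 i x hF' m hm]
        exact htag
      have h9 := t3.hd i x (hle.2.2.1 hF') n h6 m u h7 (mem_FPreSet.1 h5)
      rw [h8] at h9
      have h10 := h9.resolve_left hτ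
      exact ih _ h10 (ne_top_of_lt h10) n t3 (hle.trans hs')
        (down_meets _ _ h3 _ ht3) h6 rfl
  exact key _ htop 0 s le_rfl hY0 (h0.trans_le (hs.1 i)) (hs.2.2.2 i x hF 0 h0)

theorem main (hr : Function.Injective r) {Λ : Type}
    (hJ : ∀ g : Λ × Om × ℕ → Option J, ∃ i, ∀ t, g t ≠ some i) (p : Cd J r) :
    p ∈ ForcedPhi (Cd J r) Λ Om := by
  classical
  refine mem_fex_of xs (down_fand (down_fall fun _ => down_fall fun _ => down_fimp _ _)
    (down_fall fun _ => down_fex _)) ⟨fun a b => ?_, fun B => ?_⟩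
  · rw [mem_fimp]
    intro q _ h
    refine ⟨q, le_rfl, ?_⟩
    refine hr (funext fun n => ?_)
    have h1 := mem_FSame.1 h n q le_rfl
    rw [mem_meets_xs, mem_meets_xs] at h1
    cases h2 : r a n
    · cases h3 : r b n
      · rfl
      · rw [h2, h3] at h1
        exact absurd (h1.2 rfl) (by simp)
    · rw [h1.1 h2]
  · choose N hNc hN using fun l y => exists_countable_name (B l y)
    have hsupp : ∀ l y, ∃ g : ℕ → Option J, ∀ s ∈ N l y, ∀ j ∈ s.D, ∃ n, g n = some j := by
      intro l y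
      have h1 : (⋃ s ∈ N l y, (s.D : Set J)).Countable :=
        (hNc l y).biUnion fun s _ => s.D.countable_toSet
      rcases Set.eq_empty_or_nonempty (⋃ s ∈ N l y, (s.D : Set J)) with h2 | h2
      · refine ⟨fun _ => none, fun s hs j hj => ?_⟩
        have h3 : j ∈ (⋃ s ∈ N l y, (s.D : Set J)) := mem_biUnion hs (Finset.mem_coe.2 hj)
        rw [h2] at h3
        exact absurd h3 (notMem_empty _)
      · obtain ⟨f, hf⟩ := h1.exists_eq_range h2
        refine ⟨fun n => some (f n), fun s hs j hj => ?_⟩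
        have h3 : j ∈ (⋃ s ∈ N l y, (s.D : Set J)) := mem_biUnion hs (Finset.mem_coe.2 hj)
        rw [hf] at h3
        obtain ⟨n, rfl⟩ := h3
        exact ⟨n, rfl⟩
    choose g hg using hsupp
    obtain ⟨i, hi⟩ := hJ fun t => g t.1 t.2.1 t.2.2
    have hi' : ∀ l y, ∀ s ∈ N l y, i ∉ s.D := by
      intro l y s hs his
      obtain ⟨n, hn⟩ := hg l y s hs i his
      exact hi (l, y, n) hn
    refine mem_fex_of (gen i) (down_fex _) (mem_fex_of (cst (Cls i)) ?_ ⟨fun l => ?_,
      fun C C' => cls_compl i p C C', fun C C' => cls_union i p C C', fun C => ?_⟩)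
    · exact down_fand (down_fall fun _ => down_FMem _ _)
        (down_fand (down_fall fun _ => down_fall fun _ => down_fimp _ _)
          (down_fand (down_fall fun _ => down_fall fun _ => down_fimp _ _)
            (down_fall fun _ => down_fimp _ _)))
    · refine mem_FMem_cst_of (C' := N l) (mem_cls_of_supp (hi' l)) ?_
      rw [mem_FSame]
      intro b q _
      rw [hN l b]
    · rw [mem_fimp]
      intro q _ hq
      refine ⟨q, le_rfl, fun q' hq' hmem => ?_⟩
      obtain ⟨C1, ⟨β, hinv⟩, hC⟩ := mixing hmem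
      obtain ⟨x, hxβ, hxF⟩ : ∃ x, β < x ∧ (i, x) ∉ q'.F := by
        by_contra hcon
        push Not at hcon
        have h1 : {x | β < x}.Countable := by
          refine ((q'.F.finite_toSet.image Prod.snd).subset ?_).countable
          intro x hx
          exact ⟨(i, x), hcon x hx, rfl⟩
        obtain ⟨b0, hb0⟩ := exists_gt β
        obtain ⟨f, hf⟩ := h1.exists_eq_range ⟨b0, hb0⟩
        obtain ⟨c, hc⟩ := exists_bound f
        have hβc : β < c := by
          have h2 : b0 ∈ range f := by rw [← hf]; exact hb0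
          obtain ⟨n, rfl⟩ := h2
          exact hb0.trans (hc n)
        have h3 : c ∈ range f := by rw [← hf]; exact hβc
        obtain ⟨n, hn⟩ := h3
        exact absurd (hc n) (by rw [hn]; exact lt_irrefl _)
      obtain ⟨p1, hp1, p2, hp2, hret, ⟨a1, a2, a3⟩, b1, b2, b3⟩ := exists_pair q' i x hxF hxβ
      have hiff : ∀ s ≤ q', (s ∈ meets (C x) ↔ s ∈ FIll (gen i) (xs x)) := fun s hs =>
        (mem_fiff_reg (reg_meets _) (reg_fex _)).1 (hq x) s (hs.trans hq')
      have h1 : p1 ∈ meets (C x) := (hiff p1 hp1).2 (ill_of_top hr a1 a2 a3)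
      have h2 : p1 ∈ meets (C1 x) := (mem_FSame.1 hC x p1 hp1).2 h1
      have h3 : p2 ∈ meets (C1 x) := hinv x hxβ p1 p2 hret h2
      have h4 : p2 ∈ meets (C x) := (mem_FSame.1 hC x p2 hp2).1 h3
      exact not_ill b1 b2 b3 ((hiff p2 hp2).1 h4)

end

theorem exists_reals : ∃ r : Om → ℕ → Bool, Function.Injective r := by
  have h1 : #Om ≤ #(ℕ → Bool) := by
    have h2 : #(ℕ → Bool) = 𝔠 := by simp
    rw [h2, mk_ord_toType]
    exact aleph_one_le_continuum
  obtain ⟨f⟩ := Cardinal.le_def _ _ |>.1 h1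
  exact ⟨f, f.injective⟩

theorem main_forced (Λ : Type) : ∃ (K P : Type) (_ : Preorder P), Nonempty P ∧
    (∀ A : Set P, (∀ p ∈ A, ∀ q ∈ A, (∃ s, s ≤ p ∧ s ≤ q) → p = q) → A.Countable) ∧
    ∀ p : P, p ∈ ForcedPhi P Λ K := by
  obtain ⟨r, hr⟩ := exists_reals
  refine ⟨Om, Cd (Set (Λ × Om × ℕ)) r, inferInstance, inferInstance, fun A hA => ccc A hA,
    fun p => main hr ?_ p⟩
  intro g
  by_contra hcon
  push Not at hcon
  refine Function.cantor_surjective (fun t => (g t).getD ∅) fun i => ?_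
  obtain ⟨t, ht⟩ := hcon i
  exact ⟨t, by simp only [ht, Option.getD_some]⟩

end Pool.Agent.H504.TS
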