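import Mathlib
import Pool.Agent.H504.UCAct

set_option autoImplicit false

/-!
# Names invariant under the permutations fixing a countable set
-/

namespace Pool.Agent.H504.UC

open Cardinal Set
open Pool.Agent.Helper292.ForceCH (fnot fand fall fimp fiff fex fground meets mem_fex mem_fimp
  Down down_fnot down_fand down_fall down_fex down_fimp down_meets)
open Pool.Agent.H458R4.Cohen (Fn Compat ccc exists_antichain compat_iff ext_g)

section

variable {K : Type} (Z : Set K) (e : K → ℕ → K)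

/-- the name `C` is invariant with parameters in `A` -/
def Inv (C : K → Set (Fn K)) (A : Set K) : Prop :=
  ∀ β ∈ Z, ∀ β' ∈ Z, ∀ π : Equiv.Perm K, (∀ i, π (e β i) = e β' i) → (∀ a ∈ A, π a = a) →
    ∀ r, r ∈ C β ↔ act π r ∈ C β'

/-- the names with a countable set of parameters -/
def Cls : Set (K → Set (Fn K)) := {C | ∃ A : Set K, A.Countable ∧ Inv Z e C A}

variable {Z e}

theorem Inv.mono {C : K → Set (Fn K)} {A A' : Set K} (h : Inv Z e C A) (hA : A ⊆ A') :
    Inv Z e C A' := fun β hβ β' hβ' π h1 h2 => h β hβ β' hβ' π h1 fun a ha => h2 a (hA ha)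

/-- the name with the conditions forcing -/
theorem Inv.meets {C : K → Set (Fn K)} {A : Set K} (h : Inv Z e C A) :
    Inv Z e (fun b => meets (C b)) A := fun β hβ β' hβ' π h1 h2 _ =>
  meets_act π (h β hβ β' hβ' π h1 h2)

theorem Inv.fnot {C : K → Set (Fn K)} {A : Set K} (h : Inv Z e C A) :
    Inv Z e (fun b => fnot (C b)) A := by
  intro β hβ β' hβ' π h1 h2 r
  have h3 := h β hβ β' hβ' π h1 h2
  constructor
  · intro hr q hq hq'
    have h4 : act π.symm q ≤ r := by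
      have := act_mono π.symm hq
      rwa [symm_act] at this
    apply hr _ h4
    rw [h3, act_symm]
    exact hq'
  · intro hr q hq hq'
    exact hr _ (act_mono π hq) ((h3 q).1 hq')

/-- mixing -/
theorem mixing {C : K → Set (Fn K)} {q : Fn K} (hq : q ∈ FMem C (cst (Cls Z e))) :
    ∃ C' ∈ Cls Z e, q ∈ FSame C' C := by
  classical
  obtain ⟨A, hAE, hAc, hApre, _⟩ := exists_antichain
    (E := {r : Fn K | (∃ C' ∈ Cls Z e, r ∈ FSame C' C) ∨ ¬ Compat r q}) (by
      intro p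
      by_cases h : Compat p q
      · obtain ⟨s, h1, h2⟩ := h
        obtain ⟨r, hr, C', h3, h4⟩ := mem_fex.1 hq s h2
        obtain ⟨_, _, _, h5, _⟩ := h3 r le_rfl
        exact ⟨r, hr.trans h1, Or.inl ⟨C', h5, h4⟩⟩
      · exact ⟨p, le_rfl, Or.inr h⟩)
  -- the good members
  have hch : ∀ a : Fn K, ∃ (C' : K → Set (Fn K)) (D : Set K),
      (∃ C' ∈ Cls Z e, a ∈ FSame C' C) → (a ∈ FSame C' C ∧ D.Countable ∧ Inv Z e C' D) := by
    intro a
    by_cases h : ∃ C' ∈ Cls Z e, a ∈ FSame C' C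
    · obtain ⟨C', ⟨D, hD, hD'⟩, h2⟩ := h
      exact ⟨C', D, fun _ => ⟨h2, hD, hD'⟩⟩
    · exact ⟨fun _ => ∅, ∅, fun h' => absurd h' h⟩
  choose F D hFD using hch
  let G : Set (Fn K) := {a ∈ A | ∃ C' ∈ Cls Z e, a ∈ FSame C' C}
  let M : K → Set (Fn K) := fun b => {s | ∃ a ∈ G, s ≤ a ∧ s ∈ meets (F a b)}
  have hMdown : ∀ b, Down (M b) := by
    rintro b s ⟨a, ha, h1, h2⟩ t ht
    exact ⟨a, ha, ht.trans h1, down_meets _ _ h2 _ ht⟩
  refine ⟨M, ⟨⋃ a ∈ G, (D a ∪ supp a), ?_, ?_⟩, ?_⟩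
  · refine (hAc.mono (sep_subset _ _)).biUnion fun a ha => ?_
    exact (hFD a ha.2).2.1.union (supp_finite a).countable
  · intro β hβ β' hβ' π h1 h2 r
    have hfix : ∀ a ∈ G, act π a = a := fun a ha => act_fix π fun k hk =>
      h2 k (mem_biUnion ha (Or.inr hk))
    have hinv : ∀ a ∈ G, ∀ r, r ∈ meets (F a β) ↔ act π r ∈ meets (F a β') := fun a ha r =>
      meets_act π ((hFD a ha.2).2.2 β hβ β' hβ' π h1 fun k hk => h2 k (mem_biUnion ha (Or.inl hk)))
    constructor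
    · rintro ⟨a, ha, h3, h4⟩
      refine ⟨a, ha, ?_, (hinv a ha r).1 h4⟩
      have := act_mono π h3
      rwa [hfix a ha] at this
    · rintro ⟨a, ha, h3, h4⟩
      refine ⟨a, ha, ?_, (hinv a ha r).2 h4⟩
      have h5 := act_mono π.symm h3
      rw [symm_act] at h5
      have h6 : act π.symm a = a := by
        conv_lhs => rw [← hfix a ha]
        exact symm_act π a
      rwa [h6] at h5
  · rw [mem_FSame]
    intro b q' hq'
    constructor
    · intro h
      refine (reg_meets _).2 q' fun s hs => ?_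
      obtain ⟨t, ht, u, ⟨a, ha, hua, hu⟩, htu⟩ := h s hs
      refine ⟨t, ht, ?_⟩
      exact (mem_FSame.1 (hFD a ha.2).1 b t (htu.trans hua)).1 (down_meets _ _ hu _ htu)
    · intro h s hs
      obtain ⟨a, haA, t, ht1, ht2⟩ := hApre s
      have ha : a ∈ G := by
        refine ⟨haA, ?_⟩
        rcases hAE haA with h1 | h1
        · exact h1
        · exact absurd ⟨t, ht1, (ht2.trans hs).trans hq'⟩ h1
      have h3 : t ∈ meets (C b) := down_meets _ _ h _ (ht2.trans hs)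
      have h4 : t ∈ meets (F a b) := (mem_FSame.1 (hFD a ha.2).1 b t ht1).2 h3
      exact ⟨t, ht2, t, ⟨a, ha, ht1, h4⟩, le_rfl⟩

/-- closure under complements -/
theorem cls_compl (p : Fn K) (C C' : K → Set (Fn K)) :
    p ∈ fimp (fand (FMem C (cst (Cls Z e))) (fall fun b => fiff (meets (C' b))
      (fnot (meets (C b))))) (FMem C' (cst (Cls Z e))) := by
  rw [mem_fimp]
  rintro q _ ⟨h1, h2⟩
  refine ⟨q, le_rfl, ?_⟩
  obtain ⟨C1, ⟨A, hA, hinv⟩, h3⟩ := mixing h1
  refine mem_FMem_cst_of (C' := fun b => fnot (meets (C1 b))) ⟨A, hA, hinv.meets.fnot⟩ ?_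
  rw [mem_FSame] at h3 ⊢
  intro b r hr
  have h4 := (mem_fiff_reg (reg_meets _) (reg_fnot (down_meets _))).1 (h2 b) r hr
  rw [h4]
  constructor
  · intro h s hs hs'
    obtain ⟨t, ht, u, hu, htu⟩ := h s hs
    have h5 : t ∈ meets (C1 b) :=
      (h3 b t ((ht.trans hs).trans hr)).2 (down_meets _ _ hs' _ ht)
    exact down_fnot _ _ hu _ htu t le_rfl h5
  · intro h
    refine meets_of_mem fun s hs hs' => ?_
    exact h s hs ((h3 b s (hs.trans hr)).1 hs')

/-- closure under countable unions -/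
theorem cls_union (p : Fn K) (C : ℕ → K → Set (Fn K)) (C' : K → Set (Fn K)) :
    p ∈ fimp (fand (fall fun n => FMem (C n) (cst (Cls Z e))) (fall fun b => fiff (meets (C' b))
      (fex fun n => meets (C n b)))) (FMem C' (cst (Cls Z e))) := by
  rw [mem_fimp]
  rintro q _ ⟨h1, h2⟩
  refine ⟨q, le_rfl, ?_⟩
  choose C1 hC1 h3 using fun n => mixing (h1 n)
  choose A hA hinv using hC1
  refine mem_FMem_cst_of (C' := fun b => {s | ∃ n, s ∈ meets (C1 n b)})
    ⟨⋃ n, A n, countable_iUnion hA, ?_⟩ ?_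
  · intro β hβ β' hβ' π h4 h5 r
    have h6 : ∀ n, r ∈ meets (C1 n β) ↔ act π r ∈ meets (C1 n β') := fun n =>
      meets_act π (hinv n β hβ β' hβ' π h4 fun a ha => h5 a (mem_iUnion.2 ⟨n, ha⟩))
    exact ⟨fun ⟨n, hn⟩ => ⟨n, (h6 n).1 hn⟩, fun ⟨n, hn⟩ => ⟨n, (h6 n).2 hn⟩⟩
  · rw [mem_FSame]
    intro b r hr
    have h4 := (mem_fiff_reg (reg_meets _) (reg_fex _)).1 (h2 b) r hr
    rw [h4, mem_fex]
    constructor
    · intro h s hs
      obtain ⟨t, ht, u, ⟨n, hn⟩, htu⟩ := h s hs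
      refine ⟨t, ht, n, ?_⟩
      exact (mem_FSame.1 (h3 n) b t ((ht.trans hs).trans hr)).1 (down_meets _ _ hn _ htu)
    · intro h s hs
      obtain ⟨t, ht, n, hn⟩ := h s hs
      refine ⟨t, ht, t, ⟨n, ?_⟩, le_rfl⟩
      exact (mem_FSame.1 (h3 n) b t ((ht.trans hs).trans hr)).2 hn

end

end Pool.Agent.H504.UC
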