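import Mathlib
import Pool.Agent.H504.UCMix
import Pool.Agent.H504.Delta

set_option autoImplicit false

/-!
# Homogeneous families of countable enumerations
-/

namespace Pool.Agent.H504.UC

open Cardinal Set
open Pool.Agent.H504.Delta (pigeon delta_sys)
open Pool.Agent.H504.Delta.DS (small_mono small_iUnion small_biUnion small_union small_finite)

/-- the permutation which swaps two compatible enumerations -/
theorem exists_swap {K : Type} {e e' : ℕ → K} (he : Function.Injective e)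
    (he' : Function.Injective e') (h : ∀ i j, e i = e' j → i = j) :
    ∃ π : Equiv.Perm K, (∀ i, π (e i) = e' i) ∧ ∀ k, k ∉ range e → k ∉ range e' → π k = k := by
  classical
  let f : K → K := fun k =>
    if h1 : ∃ i, e i = k then e' h1.choose else if h2 : ∃ i, e' i = k then e h2.choose else k
  have f1 : ∀ i, f (e i) = e' i := by
    intro i
    have h1 : ∃ j, e j = e i := ⟨i, rfl⟩
    have h2 : h1.choose = i := he h1.choose_spec
    simp only [f, dif_pos h1, h2]
  have f2 : ∀ i, f (e' i) = e i := by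
    intro i
    by_cases h1 : ∃ j, e j = e' i
    · have h2 : h1.choose = i := h _ _ h1.choose_spec
      have h3 := h1.choose_spec
      simp only [f, dif_pos h1]
      rw [h2] at h3 ⊢
      exact h3.symm
    · have h2 : ∃ j, e' j = e' i := ⟨i, rfl⟩
      have h3 : h2.choose = i := he' h2.choose_spec
      simp only [f, dif_neg h1, dif_pos h2, h3]
  have f3 : ∀ k, k ∉ range e → k ∉ range e' → f k = k := by
    intro k h1 h2
    simp only [f, dif_neg (show ¬ ∃ i, e i = k from h1), dif_neg (show ¬ ∃ i, e' i = k from h2)]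
  have hinv : Function.Involutive f := by
    intro k
    by_cases h1 : k ∈ range e
    · obtain ⟨i, rfl⟩ := h1
      rw [f1, f2]
    · by_cases h2 : k ∈ range e'
      · obtain ⟨i, rfl⟩ := h2
        rw [f2, f1]
      · rw [f3 k h1 h2, f3 k h1 h2]
  exact ⟨hinv.toPerm f, f1, f3⟩

theorem exists_enum {K : Type} [Infinite K] (S : Set K) (hS : S.Countable) :
    ∃ e : ℕ → K, Function.Injective e ∧ S ⊆ range e := by
  let T : Set K := S ∪ range (Infinite.natEmbedding K)
  have hT : T.Countable := hS.union (countable_range _)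
  have hT' : T.Infinite := (infinite_range_of_injective (Infinite.natEmbedding K).injective).mono
    subset_union_right
  have : Countable T := hT
  have : Infinite T := hT'.to_subtype
  obtain ⟨g⟩ := nonempty_equiv_of_countable (α := ℕ) (β := T)
  refine ⟨fun i => (g i).1, Subtype.val_injective.comp g.injective, fun k hk => ?_⟩
  exact ⟨g.symm ⟨k, Or.inl hk⟩, by simp⟩

theorem pow_le (τ : Cardinal.{0}) (hτ : τ < ℵ₁) : 𝔠 ^ τ ≤ 𝔠 := by
  have h1 : τ ≤ ℵ₀ := by
    rw [← Order.lt_succ_iff]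
    simpa using hτ
  calc 𝔠 ^ τ ≤ 𝔠 ^ (ℵ₀ : Cardinal.{0}) := power_le_power_left continuum_ne_zero h1
    _ = 𝔠 := continuum_power_aleph0

theorem exists_Z {K C : Type} (hK : ¬ #K ≤ 𝔠) (hC : #C ≤ 𝔠) (e : K → ℕ → K) (τ : K → C) :
    ∃ (Z R : Set K), (¬ #Z ≤ 𝔠) ∧ (∀ β ∈ Z, ∀ β' ∈ Z, τ β = τ β') ∧
      (∀ β ∈ Z, ∀ β' ∈ Z, β ≠ β' → range (e β) ∩ range (e β') = R) ∧
      (∀ β ∈ Z, ∀ β' ∈ Z, ∀ i, e β i ∈ R → e β' i = e β i) := by
  classical
  obtain ⟨T1, z, _, hT1, hz⟩ := pigeon aleph0_le_continuum (univ : Set K) (by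
    rwa [mk_univ]) τ hC
  obtain ⟨T2, R, hT21, hT2, hR⟩ := delta_sys (σ := ℵ₁) aleph0_le_continuum
    aleph_one_le_continuum pow_le T1 hT1 (fun β => range (e β)) (fun β => by
      have h1 : #(range (e β)) ≤ ℵ₀ := le_aleph0_iff_set_countable.2 (countable_range _)
      exact h1.trans_lt aleph0_lt_aleph_one)
  have hRc : R.Countable := by
    have hne : ¬ T2.Subsingleton := by
      intro h
      exact hT2 (small_finite aleph0_le_continuum h.finite)
    rw [Set.not_subsingleton_iff] at hne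
    obtain ⟨β, hβ, β', hβ', hne⟩ := hne
    rw [← hR β hβ β' hβ' hne]
    exact (countable_range _).mono inter_subset_left
  have hcR : Countable R := hRc
  have hcard : #(ℕ → Option R) ≤ 𝔠 := by
    have h1 : #(Option R) ≤ ℵ₀ := mk_le_aleph0
    have h2 : #(ℕ → Option R) = #(Option R) ^ ℵ₀ := by simp [mk_pi]
    rw [h2]
    refine (power_le_power_right h1).trans ?_
    rw [aleph0_power_aleph0]
  obtain ⟨Z, w, hZ2, hZ, hw⟩ := pigeon aleph0_le_continuum T2 hT2
    (fun β => (fun i => if h : e β i ∈ R then some ⟨e β i, h⟩ else none : ℕ → Option R)) hcard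
  refine ⟨Z, R, hZ, fun β hβ β' hβ' => ?_, fun β hβ β' hβ' hne => hR β (hZ2 hβ) β' (hZ2 hβ') hne,
    fun β hβ β' hβ' i hi => ?_⟩
  · rw [hz β (hT21 (hZ2 hβ)), hz β' (hT21 (hZ2 hβ'))]
  · have h1 := congrFun (hw β hβ) i
    have h2 := congrFun (hw β' hβ') i
    rw [← h1] at h2
    simp only [dif_pos hi] at h2
    split_ifs at h2 with h3
    simp only [Option.some.injEq, Subtype.mk.injEq] at h2
    exact h2

theorem exists_cut {K : Type} [LinearOrder K] (hI : ∀ a : K, #(Iio a) ≤ 𝔠) (hK : ¬ #K ≤ 𝔠)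
    (Z : Set K) (hZ : ¬ #Z ≤ 𝔠) :
    ∃ a : K, ¬ (Z ∩ Iio a).Countable ∧ ¬ (Z ∩ Ici a).Countable := by
  have h1 : ℵ₁ ≤ #Z := (aleph_one_le_continuum.trans (not_le.1 hZ).le)
  obtain ⟨Z0, hZ0, hcard⟩ := le_mk_iff_exists_subset.1 h1
  have hU : #(⋃ z ∈ Z0, Iic z : Set K) ≤ 𝔠 := by
    refine small_biUnion aleph0_le_continuum Z0 (hcard.le.trans aleph_one_le_continuum) _ ?_
    intro z _
    rw [← Iio_insert]
    have : (insert z (Iio z) : Set K) = {z} ∪ Iio z := rfl
    rw [this]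
    exact small_union aleph0_le_continuum
      (small_finite aleph0_le_continuum (finite_singleton z)) (hI z)
  obtain ⟨a, ha⟩ : ∃ a, a ∉ (⋃ z ∈ Z0, Iic z : Set K) := by
    by_contra h
    push Not at h
    apply hK
    rw [← mk_univ]
    exact small_mono (fun a _ => h a) hU
  have hlt : ∀ z ∈ Z0, z < a := by
    intro z hz
    by_contra h
    exact ha (mem_biUnion hz (not_lt.1 h))
  refine ⟨a, fun h => ?_, fun h => ?_⟩
  · have h3 : Z0 ⊆ Z ∩ Iio a := fun z hz => ⟨hZ0 hz, hlt z hz⟩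
    have h2 : Z0.Countable := h.mono h3
    rw [← le_aleph0_iff_set_countable, hcard] at h2
    exact absurd h2 (not_le.2 aleph0_lt_aleph_one)
  · apply hZ
    refine small_mono (t := (Z ∩ Ici a) ∪ Iio a) ?_ (small_union aleph0_le_continuum ?_ (hI a))
    · intro z hz
      rcases lt_or_ge z a with h3 | h3
      · exact Or.inr h3
      · exact Or.inl ⟨hz, h3⟩
    · exact (le_aleph0_iff_set_countable.2 h).trans aleph0_le_continuum

theorem exists_avoid {K : Type} {e : K → ℕ → K} {Z R : Set K}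
    (hR : ∀ β ∈ Z, ∀ β' ∈ Z, β ≠ β' → range (e β) ∩ range (e β') = R) (F : Set K)
    (hF : F.Countable) (W : Set K) (hWZ : W ⊆ Z) (hW : ¬ W.Countable) :
    ∃ β ∈ W, ∀ k ∈ F, k ∈ range (e β) → k ∈ R := by
  by_contra h
  push Not at h
  apply hW
  have h1 : W ⊆ ⋃ k ∈ F, {β | β ∈ Z ∧ k ∈ range (e β) ∧ k ∉ R} := by
    intro β hβ
    obtain ⟨k, hk, h2, h3⟩ := h β hβ
    exact mem_biUnion hk ⟨hWZ hβ, h2, h3⟩
  refine Countable.mono h1 (hF.biUnion fun k _ => ?_)
  refine Set.Subsingleton.countable ?_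
  rintro β ⟨h2, h3, h4⟩ β' ⟨h2', h3', _⟩
  by_contra hne
  apply h4
  rw [← hR β h2 β' h2' hne]
  exact ⟨h3, h3'⟩

end Pool.Agent.H504.UC
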