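import Mathlib
import Pool.Agent.H504.UCComb

set_option autoImplicit false

/-!
# Adding Cohen reals forces `Phi`
-/

namespace Pool.Agent.H504.UC

open Cardinal Set
open Pool.Agent.Helper292.ForceCH (fnot fand fall fimp fiff fex fground meets mem_fex mem_fimp
  Down down_fnot down_fand down_fall down_fex down_fimp down_meets)
open Pool.Agent.H458R4.Cohen (Fn Compat ccc exists_antichain compat_iff ext_g)

instance : Countable (Fn ℕ) := by
  have h : Function.Injective (Fn.g : Fn ℕ → Finset ((ℕ × ℕ) × Bool)) := fun p q h => ext_g h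
  exact h.countable

theorem card_types : #(ℕ → Set (Fn ℕ)) ≤ 𝔠 := by
  have h2 : #(ℕ → Set (Fn ℕ)) = #(Set (Fn ℕ)) ^ ℵ₀ := by simp [mk_pi]
  have h3 : #(Set (Fn ℕ)) ≤ 𝔠 := by
    rw [mk_set, ← two_power_aleph0]
    exact power_le_power_left two_ne_zero mk_le_aleph0
  rw [h2]
  exact (power_le_power_right h3).trans continuum_power_aleph0.le

/-- adding one value to a condition -/
def ins {K : Type} (q : Fn K) (a : K) (n : ℕ) (c : Bool) (h : ∀ b, ((a, n), b) ∉ q.g) : Fn K where
  g := Finset.cons ((a, n), c) q.g (h c)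
  fn := by
    intro y b b' hb hb'
    rw [Finset.mem_cons] at hb hb'
    rcases hb with hb | hb <;> rcases hb' with hb' | hb'
    · simp only [Prod.mk.injEq] at hb hb'
      rw [hb.2, hb'.2]
    · simp only [Prod.mk.injEq] at hb
      rw [hb.1] at hb'
      exact absurd hb' (h _)
    · simp only [Prod.mk.injEq] at hb'
      rw [hb'.1] at hb
      exact absurd hb (h _)
    · exact q.fn y b b' hb hb'

theorem mem_ins {K : Type} {q : Fn K} {a : K} {n : ℕ} {c : Bool} {h : ∀ b, ((a, n), b) ∉ q.g}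
    {y : (K × ℕ) × Bool} : y ∈ (ins q a n c h).g ↔ y = ((a, n), c) ∨ y ∈ q.g :=
  Finset.mem_cons (h := h c)

theorem ins_le {K : Type} {q : Fn K} {a : K} {n : ℕ} {c : Bool} {h : ∀ b, ((a, n), b) ∉ q.g} :
    ins q a n c h ≤ q := fun _ hy => mem_ins.2 (Or.inr hy)

theorem exists_fresh {K : Type} (q : Fn K) (a : K) : ∃ N : ℕ, ∀ n ≥ N, ∀ b, ((a, n), b) ∉ q.g := by
  classical
  refine ⟨(q.g.image fun y => y.1.2).sup id + 1, fun n hn b h => ?_⟩
  have h1 : n ≤ (q.g.image fun y => y.1.2).sup id :=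
    Finset.le_sup (f := id) (Finset.mem_image.2 ⟨_, h, rfl⟩)
  omega

/-- the generic real -/
def gen {K : Type} (a : K) (n : ℕ) : Set (Fn K) := {p | ((a, n), true) ∈ p.g}

theorem distinct {K : Type} (a b : K) (p : Fn K) :
    p ∈ fimp (FSame (gen a) (gen b)) (fground (a = b)) := by
  rw [mem_fimp]
  intro q _ h
  refine ⟨q, le_rfl, ?_⟩
  by_contra hne
  have hne' : a ≠ b := hne
  obtain ⟨N, hN⟩ := exists_fresh q a
  obtain ⟨M, hM⟩ := exists_fresh q b
  let n := max N M
  let q1 : Fn K := ins q a n true (hN n (le_max_left _ _))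
  have h1 : ∀ c, ((b, n), c) ∉ q1.g := by
    intro c hc
    rcases mem_ins.1 hc with h2 | h2
    · simp only [Prod.mk.injEq] at h2
      exact hne' h2.1.1.symm
    · exact hM n (le_max_right _ _) c h2
  let q2 : Fn K := ins q1 b n false h1
  have hq1 : q1 ≤ q := ins_le
  have hq2 : q2 ≤ q1 := ins_le
  have h2 : q2 ∈ meets (gen a n) := by
    refine down_meets _ q1 (meets_of_mem ?_) _ hq2
    exact mem_ins.2 (Or.inl rfl)
  have h3 : q2 ∈ meets (gen b n) := (mem_FSame.1 h n q2 (hq2.trans hq1)).1 h2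
  obtain ⟨t, ht, s, hs, hts⟩ := h3 q2 le_rfl
  have h4 : ((b, n), true) ∈ t.g := hts hs
  have h5 : ((b, n), false) ∈ t.g := ht (mem_ins.2 (Or.inl rfl))
  exact absurd (t.fn _ _ _ h4 h5) (by simp)

theorem main {K : Type} [LinearOrder K] (hI : ∀ a : K, #(Iio a) ≤ 𝔠) (hK : ¬ #K ≤ 𝔠) (p : Fn K) :
    p ∈ ForcedPhi (Fn K) K := by
  classical
  have hinf : Infinite K := by
    by_contra h
    rw [not_infinite_iff_finite] at h
    exact hK ((lt_aleph0_of_finite K).le.trans aleph0_le_continuum)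
  refine mem_fex_of gen (down_fex _) ?_
  refine mem_fex_of (fun a b => {_p : Fn K | b < a})
    (down_fand (down_fall fun _ => down_fall fun _ => down_fimp _ _)
      (down_fall fun _ => down_fex _)) ?_
  refine ⟨fun a b => distinct a b p, fun B => ?_⟩
  -- countable names
  choose N hNc hN using fun n β => exists_countable_name (B n β)
  have hsupp : ∀ β, (⋃ n, ⋃ s ∈ N n β, supp s).Countable := fun β =>
    countable_iUnion fun n => (hNc n β).biUnion fun s _ => (supp_finite s).countable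
  choose e he hes using fun β => exists_enum _ (hsupp β)
  obtain ⟨Z, R, hZ, hτ, hR, hpat⟩ := exists_Z hK card_types e
    (fun β n => {s : Fn ℕ | tr (e β) (he β) s ∈ N n β})
  obtain ⟨a, ha1, ha2⟩ := exists_cut hI hK Z hZ
  have hinv : ∀ n, Inv Z e (N n) ∅ := by
    intro n β hβ β' hβ' π hπ _ r
    have h1 : ∀ s : Fn ℕ, tr (e β) (he β) s ∈ N n β ↔ tr (e β') (he β') s ∈ N n β' := by
      intro s
      have := congrFun (hτ β hβ β' hβ') n
      exact Set.ext_iff.1 this s
    have hr : ∀ γ, ∀ r ∈ N n γ, supp r ⊆ range (e γ) := fun γ r hr =>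
      (Set.subset_iUnion_of_subset n (Set.subset_biUnion_of_mem (u := fun s => supp s) hr)).trans
        (hes γ)
    constructor
    · intro h
      obtain ⟨s, rfl⟩ := exists_tr (he β) (hr β r h)
      rw [act_tr π (he β) (he β') hπ]
      exact (h1 s).1 h
    · intro h
      obtain ⟨s, hs⟩ := exists_tr (he β') (hr β' _ h)
      rw [← hs] at h
      have h2 : r = tr (e β) (he β) s := by
        rw [← symm_act π r, ← hs, ← act_tr π (he β) (he β') hπ, symm_act]
      rw [h2]
      exact (h1 s).2 h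
  refine mem_fex_of a (down_fex _) ?_
  refine mem_fex_of (cst (Cls Z e)) (down_fand (down_fall fun _ => down_FMem _ _)
    (down_fand (down_fall fun _ => down_fall fun _ => down_fimp _ _)
      (down_fand (down_fall fun _ => down_fall fun _ => down_fimp _ _) (down_fnot _)))) ?_
  refine ⟨fun n => ?_, fun C C' => cls_compl p C C', fun C C' => cls_union p C C', ?_⟩
  · refine mem_FMem_cst_of (C' := N n) ⟨∅, countable_empty, hinv n⟩ ?_
    rw [mem_FSame]
    intro b q _
    rw [hN n b]
  · intro q _ hmem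
    obtain ⟨C, ⟨A, hA, hCinv⟩, hC⟩ := mixing hmem
    have hF : (A ∪ supp q).Countable := hA.union (supp_finite q).countable
    obtain ⟨β, ⟨hβZ, hβa⟩, hβ⟩ := exists_avoid hR (A ∪ supp q) hF (Z ∩ Iio a)
      inter_subset_left ha1
    obtain ⟨β', ⟨hβ'Z, hβ'a⟩, hβ'⟩ := exists_avoid hR (A ∪ supp q) hF (Z ∩ Ici a)
      inter_subset_left ha2
    have hlt : β < β' := lt_of_lt_of_le hβa hβ'a
    have hcompat : ∀ i j, e β i = e β' j → i = j := by
      intro i j hij
      have h1 : e β i ∈ R := by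
        rw [← hR β hβZ β' hβ'Z hlt.ne]
        exact ⟨⟨i, rfl⟩, ⟨j, hij.symm⟩⟩
      have h2 := hpat β hβZ β' hβ'Z i h1
      exact he β' (h2.trans hij)
    obtain ⟨π, hπ1, hπ2⟩ := exists_swap (he β) (he β') hcompat
    have hfix : ∀ k ∈ A ∪ supp q, π k = k := by
      intro k hk
      by_cases h1 : k ∈ range (e β)
      · have h2 := hβ k hk h1
        obtain ⟨i, rfl⟩ := h1
        rw [hπ1]
        exact hpat β hβZ β' hβ'Z i h2
      · by_cases h2 : k ∈ range (e β')
        · have h3 := hβ' k hk h2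
          obtain ⟨i, rfl⟩ := h2
          have h4 := hpat β' hβ'Z β hβZ i h3
          exact absurd ⟨i, h4⟩ h1
        · exact hπ2 k h1 h2
    have hq1 : q ∈ meets (C β) := by
      rw [mem_FSame.1 hC β q le_rfl]
      exact meets_of_mem hβa
    have hq2 : act π q ∈ meets (C β') :=
      (meets_act π (hCinv β hβZ β' hβ'Z π hπ1 fun k hk => hfix k (Or.inl hk))).1 hq1
    rw [act_fix π fun k hk => hfix k (Or.inr hk)] at hq2
    rw [mem_FSame.1 hC β' q le_rfl] at hq2
    obtain ⟨_, _, _, h5, _⟩ := hq2 q le_rfl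
    have h6 : β' < a := h5
    exact absurd hβ'a (not_le.2 h6)

theorem main_forced : ∃ (K P : Type) (_ : Preorder P), Nonempty P ∧
    ∀ p : P, p ∈ ForcedPhi P K := by
  refine ⟨(Order.succ (𝔠 : Cardinal.{0})).ord.ToType,
    Fn (Order.succ (𝔠 : Cardinal.{0})).ord.ToType, inferInstance, inferInstance, fun p => ?_⟩
  refine main (fun a => ?_) ?_ p
  · rw [← Order.lt_succ_iff]
    exact mk_Iio_toType_ord_lt a
  · rw [mk_ord_toType, not_le]
    exact Order.lt_succ _

end Pool.Agent.H504.UC
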